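import Pool.Statements.S00750
import Pool.Agent.V8H66.GG.Ret
import Pool.Agent.V8H66.GG.Sep

set_option autoImplicit false
open Pool Pool.MP_0fe979_al

namespace Pool.Agent.S00750

/-- The negation of the preceding statement: Let G act on a tree without inversions, with finitely many vertex and edge orbits, free abelian finite-rank vertex stabilizers and cyclic edge stabilizers. If G is cyclic subgroup separable, is every cyclic subgroup of G a virtual retract? -/
theorem result :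
    ¬ (∀ (G : Type) [Group G] (V : Type) (T : SimpleGraph V) [MulAction G V],
    T.IsTree →
    (∀ (g : G) (u v : V), T.Adj u v → T.Adj (g • u) (g • v)) →
    (∀ (g : G) (u v : V), T.Adj u v → ¬ (g • u = v ∧ g • v = u)) →
    (∃ S : Finset V, ∀ v : V, ∃ g : G, g • v ∈ S) →
    (∃ E : Finset (V × V), ∀ u v : V, T.Adj u v → ∃ g : G, (g • u, g • v) ∈ E) →
    (∀ v : V, ∃ n : ℕ, Nonempty (↥(MulAction.stabilizer G v) ≃* Multiplicative (Fin n → ℤ))) →
    (∀ u v : V, T.Adj u v →
      IsCyclic ↥(MulAction.stabilizer G u ⊓ MulAction.stabilizer G v)) →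
    (∀ g h : G, h ∉ Subgroup.zpowers g →
      ∃ K : Subgroup G, K.FiniteIndex ∧ Subgroup.zpowers g ≤ K ∧ h ∉ K) →
    ∀ g : G, ∃ K : Subgroup G, K.FiniteIndex ∧ Subgroup.zpowers g ≤ K ∧
      ∃ r : ↥K →* G, (∀ k : ↥K, r k ∈ Subgroup.zpowers g) ∧
        (∀ k : ↥K, (k : G) ∈ Subgroup.zpowers g → r k = (k : G))) := by
  intro H
  exact Pool.Agent.V8H66.GG.not_retract
    (H Pool.Agent.V8H66.GG.G Pool.Agent.V8H66.GG.V Pool.Agent.V8H66.GG.T
      Pool.Agent.V8H66.GG.isTree Pool.Agent.V8H66.GG.T_smul Pool.Agent.V8H66.GG.no_inv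
      Pool.Agent.V8H66.GG.vertex_orbit Pool.Agent.V8H66.GG.edge_orbit
      Pool.Agent.V8H66.GG.vertex_stab Pool.Agent.V8H66.GG.edge_stab
      Pool.Agent.V8H66.GG.css Pool.Agent.V8H66.GG.ga)

end Pool.Agent.S00750
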