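import Pool.Statements.S01997
import Pool.Agent.V8H72.RStar5

set_option autoImplicit false
open Pool Pool.MP_795ac0_al

namespace Pool.Agent.S01997

open Pool.Agent.V8H72.RStar in
/-- The property of the problem in terms of lists. -/
theorem nt_iff {H : Type*} [Group H] (g : H) :
    NT g ↔ ∀ n : ℕ, ∀ x : Fin (n + 1) → H,
      (List.ofFn (fun j => x j * g * (x j)⁻¹)).prod ≠ 1 := by
  constructor
  · intro h n x h1
    apply h (List.ofFn x)
    · simp
    · rw [List.map_ofFn]
      exact h1
  · intro h xs hxs h1
    obtain ⟨n, hn⟩ : ∃ n, xs.length = n + 1 :=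
      ⟨xs.length - 1, by have := List.length_pos_of_ne_nil hxs; omega⟩
    apply h n (fun j => xs[(j : ℕ)]'(by rw [hn]; exact j.2))
    rw [← h1]
    congr 1
    apply List.ext_getElem
    · simp [hn]
    · intro i h2 h3
      rw [List.getElem_ofFn, List.getElem_map]

/-- Suppose every group in a family has the property that no nonempty product of conjugates of a nontrivial element is trivial. Then the free product of the family also has this property. -/
theorem result :
    ∀ (ι : Type) (G : ι → Type) [∀ i, Group (G i)],
      (∀ i, ∀ g : G i, g ≠ 1 → ∀ n : ℕ, ∀ x : Fin (n + 1) → G i,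
          (List.ofFn (fun j => x j * g * (x j)⁻¹)).prod ≠ 1) →
      ∀ g : Monoid.CoprodI G, g ≠ 1 → ∀ n : ℕ, ∀ x : Fin (n + 1) → Monoid.CoprodI G,
          (List.ofFn (fun j => x j * g * (x j)⁻¹)).prod ≠ 1 := by
  intro ι G _ hG g hg
  have hNT : ∀ i (a : G i), a ≠ 1 → Pool.Agent.V8H72.RStar.NT a := by
    intro i a ha
    rw [nt_iff]
    exact hG i a ha
  rw [← nt_iff]
  apply Pool.Agent.V8H72.RStar.NT_main _ hNT g hg
  intro i a n hn ha
  by_contra hne
  apply hNT i a hne (List.replicate n 1)
  · intro h
    have := congrArg List.length h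
    simp at this
    omega
  · simpa using ha

end Pool.Agent.S01997
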