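import Pool.Statements.S04135
-- import your own Pool.Agent.* helpers here
import Pool.Agent.Helper704.RB.E
import Pool.Agent.V8H60.Radial.Var

set_option autoImplicit false
open MeasureTheory
open Pool Pool.MP_28e115_an

namespace Pool.Agent.S04135

lemma norm_toLp {n : ℕ} (x : Fin n → ℂ) :
    ‖(WithLp.toLp 2 x : EuclideanSpace ℂ (Fin n))‖ = Real.sqrt (∑ i, ‖x i‖ ^ 2) := by
  rw [EuclideanSpace.norm_eq]

/-- For every n ≥ 2 there is a bounded holomorphic function on the unit ball of ℂⁿ whose restriction to almost every radius r ↦ f(rζ), 0 ≤ r < 1, has infinite total variation, i.e. a nonrectifiable image. -/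
theorem result :
    ∀ n : ℕ, 2 ≤ n →
      ∃ f : (Fin n → ℂ) → ℂ,
        DifferentiableOn ℂ f {z : Fin n → ℂ | ∑ i, ‖z i‖ ^ 2 < 1} ∧
        (∃ M : ℝ, ∀ z ∈ {z : Fin n → ℂ | ∑ i, ‖z i‖ ^ 2 < 1}, ‖f z‖ ≤ M) ∧
        ∀ᵐ x ∂(volume : Measure (Fin n → ℂ)),
          eVariationOn
            (fun r : ℝ => f ((((r / Real.sqrt (∑ i, ‖x i‖ ^ 2) : ℝ)) : ℂ) • x))
            (Set.Ico (0 : ℝ) 1) = ⊤ := by
  intro n hn
  have hnonempty : Nonempty (Fin n) := ⟨⟨0, by omega⟩⟩
  -- the continuous linear equivalence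
  set e : (Fin n → ℂ) ≃L[ℂ] EuclideanSpace ℂ (Fin n) :=
    (EuclideanSpace.equiv (Fin n) ℂ).symm with he
  have hesq : ∀ x : Fin n → ℂ, ‖e x‖ = Real.sqrt (∑ i, ‖x i‖ ^ 2) := fun x => norm_toLp x
  have hball : ∀ z : Fin n → ℂ, ∑ i, ‖z i‖ ^ 2 < 1 ↔ e z ∈ Metric.ball (0 : EuclideanSpace ℂ (Fin n)) 1 := by
    intro z
    rw [mem_ball_zero_iff, hesq, Real.sqrt_lt' one_pos, one_pow]
  -- a point of the sphere
  set p0 : EuclideanSpace ℂ (Fin n) := EuclideanSpace.single (Classical.arbitrary (Fin n)) (1:ℂ)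
    with hp0
  have hp0n : ‖p0‖ = 1 := by
    rw [hp0, PiLp.norm_single, norm_one]
  -- normalization
  classical
  let v : (Fin n → ℂ) → EuclideanSpace ℂ (Fin n) := fun x =>
    if x = 0 then p0 else ((‖e x‖⁻¹ : ℝ) : ℂ) • e x
  have hvm : ∀ x, v x ∈ Metric.sphere (0 : EuclideanSpace ℂ (Fin n)) 1 := by
    intro x
    rw [mem_sphere_zero_iff_norm]
    by_cases h : x = 0
    · simp only [v, if_pos h, hp0n]
    · have : ‖e x‖ ≠ 0 := by
        rw [norm_ne_zero_iff]
        exact fun h0 => h (e.map_eq_zero_iff.1 h0)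
      simp only [v, if_neg h]
      rw [norm_smul, Complex.norm_real, norm_inv, norm_norm, inv_mul_cancel₀ this]
  have hv : Measurable v := by
    refine Measurable.ite (measurableSet_singleton (0 : Fin n → ℂ)) measurable_const ?_
    have m1 : Measurable fun x : Fin n → ℂ => ((‖e x‖⁻¹ : ℝ) : ℂ) :=
      Complex.measurable_ofReal.comp ((measurable_norm.comp e.continuous.measurable).inv)
    have m2 : Measurable fun x : Fin n → ℂ => e x := e.continuous.measurable
    exact m1.smul m2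
  let N : (Fin n → ℂ) → Metric.sphere (0 : EuclideanSpace ℂ (Fin n)) 1 := fun x => ⟨v x, hvm x⟩
  have hN : Measurable N := hv.subtype_mk
  have hfin : IsFiniteMeasure ((volume : Measure (Fin n → ℂ)).toFinite.map N) :=
    Measure.isFiniteMeasure_map _ _
  obtain ⟨F, hF1, hF2, hF3⟩ := Pool.Agent.Helper704.RadBall.main (n := n) (by omega)
    ((volume : Measure (Fin n → ℂ)).toFinite.map N)
  refine ⟨fun z => F (e z), ?_, ⟨1, fun z hz => hF2 _ ((hball z).1 hz)⟩, ?_⟩
  · refine hF1.comp e.differentiable.differentiableOn ?_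
    intro z hz
    exact (hball z).1 hz
  · have h1 := ae_of_ae_map hN.aemeasurable hF3
    have h2 := (MeasureTheory.absolutelyContinuous_toFinite (volume : Measure (Fin n → ℂ))).ae_le h1
    have h3 : ∀ᵐ x ∂(volume : Measure (Fin n → ℂ)), x ≠ 0 := by
      have : (volume : Measure (Fin n → ℂ)) {0} = 0 := measure_singleton 0
      rw [ae_iff]
      simp
    filter_upwards [h2, h3] with x hx hx0
    have hNx : (N x : EuclideanSpace ℂ (Fin n)) = ((‖e x‖⁻¹ : ℝ) : ℂ) • e x := by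
      simp only [N, v, if_neg hx0]
    have hNn : ‖(N x : EuclideanSpace ℂ (Fin n))‖ = 1 := by
      have := (N x).2
      rwa [mem_sphere_zero_iff_norm] at this
    have hfun : (fun r : ℝ => F (e ((((r / Real.sqrt (∑ i, ‖x i‖ ^ 2) : ℝ)) : ℂ) • x))) =
        fun r : ℝ => F ((r : ℂ) • (N x : EuclideanSpace ℂ (Fin n))) := by
      funext r
      rw [e.map_smul, hNx, smul_smul, ← hesq x, div_eq_mul_inv, Complex.ofReal_mul]
    show eVariationOn (fun r : ℝ => F (e ((((r / Real.sqrt (∑ i, ‖x i‖ ^ 2) : ℝ)) : ℂ) • x)))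
            (Set.Ico (0 : ℝ) 1) = ⊤
    rw [hfun]
    apply Pool.Agent.V8H60.Radial.complex_bv _ hx
    intro r hr
    have hmem : (r : ℂ) • (N x : EuclideanSpace ℂ (Fin n)) ∈
        Metric.ball (0 : EuclideanSpace ℂ (Fin n)) 1 := by
      rw [mem_ball_zero_iff, norm_smul, hNn, mul_one, Complex.norm_real, Real.norm_eq_abs,
        abs_of_pos hr.1]
      exact hr.2
    have hFd : DifferentiableAt ℂ F ((r : ℂ) • (N x : EuclideanSpace ℂ (Fin n))) :=
      (hF1 _ hmem).differentiableAt (Metric.isOpen_ball.mem_nhds hmem)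
    have hFr : DifferentiableAt ℝ F ((r : ℂ) • (N x : EuclideanSpace ℂ (Fin n))) :=
      hFd.restrictScalars ℝ
    have hl : DifferentiableAt ℝ (fun t : ℝ => (t : ℂ) • (N x : EuclideanSpace ℂ (Fin n))) r := by
      have h5 : DifferentiableAt ℝ (fun t : ℝ => (t : ℂ)) r := Complex.ofRealCLM.differentiableAt
      exact h5.smul_const _
    exact DifferentiableAt.comp r hFr hl

end Pool.Agent.S04135
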