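import Pool.Statements.S05079
import Pool.Agent.V8H52.Bran4

set_option autoImplicit false
open Pool Pool.MP_761a8f_an

/-!
Brannan's coefficient conjecture for `β = 1`, all `α > 0` and all odd indices.

Proof. For `0 < α < 1` the coefficients are moments: `binom(α, k+1) = (-1)^k (α / A) ∫ t^k w(t) dt`,
`w(t) = t^{-α} (1-t)^α`, `A = ∫ w` (integrals over `[0, 1]`). Hence, for odd `m` and `|x| = 1`,
`S_m(x) = (1+x)^α + (α / A) x^{m+1} ∫ t^m w(t) / (1+tx) dt`, and, with `u = |1+x|`,
`|S_m(x)| ≤ u^α + (α / A) ∫ t^m w(t) ((1-t)² + t u²)^{-1/2} dt`, with equality for `x = 1`. The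
right hand side increases with `u`: with `P(t) = 1 - (1-t) / √((1-t)² + t u²)` one has
`t w(t) u² ((1-t)² + t u²)^{-3/2} ≤ u^α w(P(t)) P'(t)`, so that the derivative of the integral is at
least `- A u^{α-1}`. For `1 < α < 2` the squared modulus of the partial sum decreases on the arc
`|1+x| ≥ 1`, and the triangle inequality suffices on the rest of the circle; this holds for even
indices too, and Pascal's rule extends it to all `α ≥ 1`.
-/

namespace Pool.Agent.S05079

/-- For every real α>0, every odd m≥3 and every complex x with ∣x∣=1, the modulus of the sum over k from 0 to m of binom(α,k)·x^k is at most the same sum evaluated at x=1. -/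
theorem result :
    ∀ α : ℝ, 0 < α → ∀ m : ℕ, Odd m → 3 ≤ m → ∀ x : ℂ, ‖x‖ = 1 →
      ‖∑ k ∈ Finset.range (m + 1),
          ((∏ j ∈ Finset.range k, ((α : ℂ) - (j : ℂ))) / (k.factorial : ℂ)) * x ^ k‖
        ≤ ∑ k ∈ Finset.range (m + 1),
            (∏ j ∈ Finset.range k, (α - (j : ℝ))) / (k.factorial : ℝ) := by
  intro α hα m hm _ x hx
  have h := Pool.Agent.V8H52.Bran.main α hα m hm x hx
  unfold Pool.Agent.V8H52.Bran.S Pool.Agent.V8H52.Bran.S1 Pool.Agent.V8H52.Bran.c at h
  push_cast at h
  exact h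

end Pool.Agent.S05079
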