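import Pool.Statements.S05718
import Pool.Agent.V8H59.FS.Lim

set_option autoImplicit false
open MeasureTheory Filter Topology
open Pool Pool.MP_a70d84_an

namespace Pool.Agent.S05718

/-- The negation of the preceding statement: On ℓ²(ℕ), a finite-section sequence has the form P_nKP_n+W_nK'W_n+C_n (K,K' compact, ‖C_n‖→0) iff it lies in the closed algebra generated by P_nT(a)P_n, a∈L^∞, and both s-lim A_n and s-lim W_nA_nW_n are compact. -/
theorem result :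
    ¬ (∀ (P W : ℕ → (lp (fun _ : ℕ => ℂ) 2 →L[ℂ] lp (fun _ : ℕ => ℂ) 2)),
    (∀ (n : ℕ) (x : lp (fun _ : ℕ => ℂ) 2) (j : ℕ), (P n x) j = if j ≤ n then x j else 0) →
    (∀ (n : ℕ) (x : lp (fun _ : ℕ => ℂ) 2) (j : ℕ), (W n x) j = if j ≤ n then x (n - j) else 0) →
    ∀ A : ℕ → (lp (fun _ : ℕ => ℂ) 2 →L[ℂ] lp (fun _ : ℕ => ℂ) 2),
      (∃ K K' : lp (fun _ : ℕ => ℂ) 2 →L[ℂ] lp (fun _ : ℕ => ℂ) 2,
        IsCompactOperator K ∧ IsCompactOperator K' ∧
        ∃ C : ℕ → (lp (fun _ : ℕ => ℂ) 2 →L[ℂ] lp (fun _ : ℕ => ℂ) 2),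
          (∀ n, C n = P n * C n * P n) ∧
          Tendsto (fun n => ‖C n‖) atTop (𝓝 0) ∧
          ∀ n, A n = P n * K * P n + W n * K' * W n + C n)
      ↔
      ((∀ ε : ℝ, 0 < ε →
          ∃ B ∈ NonUnitalAlgebra.adjoin ℂ
            {G : ℕ → (lp (fun _ : ℕ => ℂ) 2 →L[ℂ] lp (fun _ : ℕ => ℂ) 2) |
              ∃ a : Lp ℂ ⊤ (volume : Measure (AddCircle (1 : ℝ))),
              ∃ T : lp (fun _ : ℕ => ℂ) 2 →L[ℂ] lp (fun _ : ℕ => ℂ) 2,
                (∀ j k : ℕ, (T (lp.single 2 k (1 : ℂ) : lp (fun _ : ℕ => ℂ) 2)) j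
                    = fourierCoeff (⇑a : AddCircle (1 : ℝ) → ℂ) ((j : ℤ) - (k : ℤ))) ∧
                ∀ n, G n = P n * T * P n},
            ∀ n, ‖A n - B n‖ ≤ ε) ∧
       (∃ K : lp (fun _ : ℕ => ℂ) 2 →L[ℂ] lp (fun _ : ℕ => ℂ) 2,
          IsCompactOperator K ∧ ∀ x, Tendsto (fun n => A n x) atTop (𝓝 (K x))) ∧
       (∃ K : lp (fun _ : ℕ => ℂ) 2 →L[ℂ] lp (fun _ : ℕ => ℂ) 2,
          IsCompactOperator K ∧
          ∀ x, Tendsto (fun n => (W n * A n * W n) x) atTop (𝓝 (K x))))) := by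
  intro H
  have H1 := H V8H59.FS.P V8H59.FS.W V8H59.FS.P_coord V8H59.FS.W_coord
    (fun n => V8H59.FS.D n * V8H59.FS.E n)
  obtain ⟨K, K', hK, hK', C, -, hC, hA⟩ := H1.2 (by
    refine ⟨?_, ⟨0, isCompactOperator_zero, fun x => ?_⟩, ⟨0, isCompactOperator_zero, fun x => ?_⟩⟩
    · intro ε hε
      refine ⟨fun n => V8H59.FS.D n * V8H59.FS.E n, ?_, fun n => by simpa using hε.le⟩
      set GG := {G : ℕ → (lp (fun _ : ℕ => ℂ) 2 →L[ℂ] lp (fun _ : ℕ => ℂ) 2) |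
              ∃ a : Lp ℂ ⊤ (volume : Measure (AddCircle (1 : ℝ))),
              ∃ T : lp (fun _ : ℕ => ℂ) 2 →L[ℂ] lp (fun _ : ℕ => ℂ) 2,
                (∀ j k : ℕ, (T (lp.single 2 k (1 : ℂ) : lp (fun _ : ℕ => ℂ) 2)) j
                    = fourierCoeff (⇑a : AddCircle (1 : ℝ) → ℂ) ((j : ℤ) - (k : ℤ))) ∧
                ∀ n, G n = V8H59.FS.P n * T * V8H59.FS.P n} with hGG
      have gen : ∀ (g : AddCircle (1 : ℝ) → ℂ), Measurable g → (∀ t, ‖g t‖ ≤ 1) →
          ∀ T : lp (fun _ : ℕ => ℂ) 2 →L[ℂ] lp (fun _ : ℕ => ℂ) 2,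
          (∀ j k : ℕ, (T (lp.single 2 k (1 : ℂ) : lp (fun _ : ℕ => ℂ) 2)) j
                    = fourierCoeff g ((j : ℤ) - (k : ℤ))) →
          (fun n => V8H59.FS.P n * T * V8H59.FS.P n) ∈ NonUnitalAlgebra.adjoin ℂ GG := by
        intro g hg hg1 T hT
        apply NonUnitalAlgebra.subset_adjoin
        have hmem : MemLp g ⊤ (volume : Measure (AddCircle (1 : ℝ))) :=
          memLp_top_of_bound hg.aestronglyMeasurable 1 (Eventually.of_forall hg1)
        refine ⟨hmem.toLp g, T, ?_, fun n => rfl⟩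
        intro j k
        rw [hT]
        apply congrFun
        symm
        apply fourierCoeff_congr_ae
        rw [← V8H59.FS.vol_eq]
        exact MemLp.coeFn_toLp hmem
      have g0 : (fun n => V8H59.FS.P n) ∈ NonUnitalAlgebra.adjoin ℂ GG := by
        have h := gen (fun _ => 1) measurable_const (fun t => by simp) 1 (by
          intro j k
          have h1 : (fun _ : AddCircle (1 : ℝ) => (1 : ℂ)) = (fourier 0 : AddCircle (1 : ℝ) → ℂ) := by
            funext t; simp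
          rw [h1, fourierCoeff_fourier]
          by_cases hjk : j = k
          · subst hjk; simp
          · rw [Pi.single_eq_of_ne (by omega)]
            exact (V8H59.FS.e_apply k j).trans (if_neg hjk))
        simp only [mul_one, V8H59.FS.PP] at h
        exact h
      have g1 := gen V8H59.FS.sy V8H59.FS.measurable_sy (fun t => (V8H59.FS.norm_sy t).le)
        V8H59.FS.L (fun j k => V8H59.FS.L_apply k j)
      have g2 := gen (fun t => (starRingEnd ℂ) (V8H59.FS.sy t))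
        (Complex.continuous_conj.measurable.comp V8H59.FS.measurable_sy)
        (fun t => by rw [Complex.norm_conj]; exact (V8H59.FS.norm_sy t).le)
        V8H59.FS.Ls (fun j k => V8H59.FS.Ls_apply k j)
      exact mul_mem (sub_mem g0 (mul_mem g1 g2)) (sub_mem g0 (mul_mem g2 g1))
    · exact V8H59.FS.DE_tendsto x
    · exact V8H59.FS.WDEW_tendsto x)
  apply V8H59.FS.not_null
  have t1 := (V8H59.FS.compact_null hK (x := fun m => V8H59.FS.W (m + 1) (V8H59.FS.kk m))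
    (fun m => (V8H59.FS.norm_W _ _).trans (V8H59.FS.norm_kk m).le) V8H59.FS.Wkk_null)
  have t2 := (V8H59.FS.compact_null hK' (x := fun m => V8H59.FS.P (m + 1) (V8H59.FS.kk m))
    (fun m => (V8H59.FS.norm_P _ _).trans (V8H59.FS.norm_kk m).le) V8H59.FS.Pkk_null)
  have t1' := tendsto_zero_iff_norm_tendsto_zero.1 t1
  have t2' := tendsto_zero_iff_norm_tendsto_zero.1 t2
  have t3 := (tendsto_add_atTop_iff_nat 1).2 hC
  rw [tendsto_zero_iff_norm_tendsto_zero]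
  have t4 := (t1'.add t2').add t3
  simp only [add_zero] at t4
  refine squeeze_zero (fun m => norm_nonneg _) (fun m => ?_) t4
  have h1 : (V8H59.FS.D (m + 1) * V8H59.FS.E (m + 1)) (V8H59.FS.W (m + 1) (V8H59.FS.kk m))
      = V8H59.FS.P (m + 1) (K (V8H59.FS.P (m + 1) (V8H59.FS.W (m + 1) (V8H59.FS.kk m))))
        + V8H59.FS.W (m + 1) (K' (V8H59.FS.W (m + 1) (V8H59.FS.W (m + 1) (V8H59.FS.kk m))))
        + C (m + 1) (V8H59.FS.W (m + 1) (V8H59.FS.kk m)) := by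
    have h2 := hA (m + 1)
    exact congrArg (fun T : V8H59.FS.H2 →L[ℂ] V8H59.FS.H2 =>
      T (V8H59.FS.W (m + 1) (V8H59.FS.kk m))) h2
  have h3 : V8H59.FS.P (m + 1) (V8H59.FS.W (m + 1) (V8H59.FS.kk m))
      = V8H59.FS.W (m + 1) (V8H59.FS.kk m) :=
    congrArg (fun T : V8H59.FS.H2 →L[ℂ] V8H59.FS.H2 => T (V8H59.FS.kk m)) (V8H59.FS.PW (m + 1))
  have h4 : V8H59.FS.W (m + 1) (V8H59.FS.W (m + 1) (V8H59.FS.kk m))
      = V8H59.FS.P (m + 1) (V8H59.FS.kk m) :=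
    congrArg (fun T : V8H59.FS.H2 →L[ℂ] V8H59.FS.H2 => T (V8H59.FS.kk m)) (V8H59.FS.WW (m + 1))
  rw [h1, h3, h4]
  refine (norm_add_le _ _).trans (add_le_add ((norm_add_le _ _).trans (add_le_add
    (V8H59.FS.norm_P _ _) (V8H59.FS.norm_W _ _))) ?_)
  refine (ContinuousLinearMap.le_opNorm _ _).trans ?_
  exact mul_le_of_le_one_right (norm_nonneg _)
    ((V8H59.FS.norm_W _ _).trans (V8H59.FS.norm_kk m).le)

end Pool.Agent.S05718
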