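import Pool.Statements.S06533
import Pool.Agent.V8H53.OverRec

set_option autoImplicit false
open MeasureTheory Filter Topology
open Pool Pool.MP_e8a8db_an

namespace Pool.Agent.S06533

/-- Every nontrivial mixing measure-preserving system on a probability space has an over-recurrent set, or a bounded non-constant function f with ∫ f·f∘T^n ≥ (∫ f)^2 for all n ≥ 1. -/
theorem result :
    ∀ (X : Type) [MeasurableSpace X] (μ : Measure X) [IsProbabilityMeasure μ] (T : X → X),
      MeasurePreserving T μ μ →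
      (∃ A : Set X, MeasurableSet A ∧ 0 < μ A ∧ μ A < 1) →
      (∀ A B : Set X, MeasurableSet A → MeasurableSet B →
        Tendsto (fun n : ℕ => μ (A ∩ T^[n] ⁻¹' B)) atTop (𝓝 (μ A * μ B))) →
      (∃ A : Set X, MeasurableSet A ∧ 0 < μ A ∧ μ A < 1 ∧
          ∀ n : ℕ, 1 ≤ n → μ A ^ 2 ≤ μ (A ∩ T^[n] ⁻¹' A)) ∨
      (∃ f : X → ℝ, MemLp f ⊤ μ ∧ (¬ ∃ c : ℝ, f =ᵐ[μ] fun _ => c) ∧
          ∀ n : ℕ, 1 ≤ n → (∫ x, f x ∂μ) ^ 2 ≤ ∫ x, f x * f (T^[n] x) ∂μ) := by
  intro X _ μ _ T hT ⟨A, hA, hA0, hA1⟩ hmix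
  right
  have hmix' : Pool.Agent.V8H53.OverRec.Mix μ T := by
    intro B C hB hC
    have h := hmix B C hB hC
    have h2 := (ENNReal.tendsto_toReal
      (ENNReal.mul_ne_top (measure_ne_top μ B) (measure_ne_top μ C))).comp h
    rw [ENNReal.toReal_mul] at h2
    exact h2
  have h0 : 0 < μ.real A := ENNReal.toReal_pos hA0.ne' (measure_ne_top μ A)
  have h1 : μ.real A < 1 := by
    have := (ENNReal.toReal_lt_toReal (measure_ne_top μ A) ENNReal.one_ne_top).2 hA1
    simpa [Measure.real] using this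
  obtain ⟨f, hf, hfb, hmean, hpos⟩ := Pool.Agent.V8H53.OverRec.main hmix' hT hA h0 h1
  refine ⟨f, ?_, ?_, ?_⟩
  · exact memLp_top_of_bound hf.aestronglyMeasurable 50
      (Eventually.of_forall (fun x => by rw [Real.norm_eq_abs]; exact hfb x))
  · rintro ⟨c, hc⟩
    have hc0 : c = 0 := by
      have := integral_congr_ae hc
      rw [hmean] at this
      simpa using this.symm
    have h3 := hpos 1 le_rfl
    have h4 : (fun x => f x * f (T^[1] x)) =ᵐ[μ] fun _ => (0:ℝ) := by
      filter_upwards [hc] with x hx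
      rw [hx, hc0, zero_mul]
    rw [integral_congr_ae h4] at h3
    simp at h3
  · intro n hn
    rw [hmean]
    simpa using (hpos n hn).le

end Pool.Agent.S06533
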