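import Pool.Statements.S07563
-- import your own Pool.Agent.* helpers here
import Pool.Agent.V8H27.MK.G.MkF

/-!
# Mäkelä's problem: an infinite ternary word whose only abelian squares are the squares of letters

The word is the image of a square-free ternary word under a rotated morphism: the `k`-th block is
`g_b + (rotation)`, where `b` and the rotation are read from the square-free word (the scheme of the
starting files `Pool.Agent.K7.H27.MK`), with two blocks `g₀`, `g₁` of length 4000 found by a computer
search (population search for two planar walks in `ℤ[ω]` with a prescribed macroscopic shape).
An abelian square of period `n` in the word is a relation `S(i) + S(i + 2 n) = 2 S(i + n)` between three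
partial sums in `ℤ[ω]`; modulo `μ = S(g₁) - S(g₀)`, of norm 115941, this becomes a relation between three
positions in the blocks, and `cert` is the kernel checked statement that for all `4000 · 4000 · 8` pairs of
positions and choices of blocks (and the classes of the rotations) the only relations are those that would
give a square in the square-free word, or have `n ≤ 1`.
-/

set_option autoImplicit false
open Pool Pool.MP_1f24c5_co

namespace Pool.Agent.S07563

/-- There is an infinite word over {0,1,2} in which no factor uv with u, v of equal length at least 2 has u and v containing each letter the same number of times. -/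
theorem result :
    ∃ w : ℕ → Fin 3, ∀ i n : ℕ, 2 ≤ n →
      ¬ (∀ a : Fin 3,
          ((Finset.range n).filter (fun k => w (i + k) = a)).card =
          ((Finset.range n).filter (fun k => w (i + n + k) = a)).card) := by
  refine ⟨Pool.Agent.K7.H27.MK.xw Pool.Agent.V8H27.MK.G.MkD.wd Pool.Agent.K7.H27.MK.SkelF.s 4000, ?_⟩
  intro i n hn hc
  exact Pool.Agent.K7.H27.MK.main_xw Pool.Agent.K7.H27.MK.om_rel Pool.Agent.K7.H27.MK.SkelF.s_lt (by norm_num)
    (by norm_num) Pool.Agent.V8H27.MK.G.MkF.cert Pool.Agent.K7.H27.MK.SkelF.s_nosq i n hn hc

end Pool.Agent.S07563
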