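import Pool.Statements.S07963
import Pool.Agent.V8H20.CR.Clique

set_option autoImplicit false
open Pool Pool.MP_31cced_co

namespace Pool.Agent.S07963

/-- For every finite simple graph G on n vertices with clique number ω and every integer λ ≥ n, the number of proper (λ−1)-colourings divided by the number of proper λ-colourings is at most (1−ω/λ)(1−1/λ)^(n−ω). -/
theorem result :
    ∀ (V : Type) [Fintype V] (G : SimpleGraph V) (lam : ℕ),
      Fintype.card V ≤ lam →
      (Nat.card (G.Coloring (Fin (lam - 1))) : ℝ) / (Nat.card (G.Coloring (Fin lam)) : ℝ)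
        ≤ (1 - ((sSup {k : ℕ | ∃ s : Finset V, G.IsNClique k s} : ℕ) : ℝ) / (lam : ℝ))
          * (1 - 1 / (lam : ℝ)) ^ (Fintype.card V - sSup {k : ℕ | ∃ s : Finset V, G.IsNClique k s}) := by
  intro V _ G lam hn
  have hbdd : BddAbove {k : ℕ | ∃ s : Finset V, G.IsNClique k s} := by
    refine ⟨Fintype.card V, ?_⟩
    rintro k ⟨s, hs⟩
    rw [← hs.card_eq]
    exact Finset.card_le_univ s
  have hmem : sSup {k : ℕ | ∃ s : Finset V, G.IsNClique k s} ∈
      {k : ℕ | ∃ s : Finset V, G.IsNClique k s} :=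
    Nat.sSup_mem ⟨0, ∅, by simp [SimpleGraph.isNClique_iff]⟩ hbdd
  set w : ℕ := sSup {k : ℕ | ∃ s : Finset V, G.IsNClique k s} with hw
  obtain ⟨K, hK⟩ := hmem
  have hKw : K.card = w := hK.card_eq
  have hwn : w ≤ Fintype.card V := by
    rw [← hKw]
    exact Finset.card_le_univ K
  rcases Nat.eq_zero_or_pos lam with h0 | hpos
  · subst h0
    have hV : Fintype.card V = 0 := by omega
    have hw0 : w = 0 := by omega
    have h1 : (Nat.card (G.Coloring (Fin (0 - 1))) : ℝ) / (Nat.card (G.Coloring (Fin 0)) : ℝ) ≤ 1 :=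
      div_self_le_one (Nat.card (G.Coloring (Fin 0)) : ℝ)
    refine h1.trans (le_of_eq ?_)
    rw [hw0, hV]
    simp
  · obtain ⟨m, rfl⟩ : ∃ m, lam = m + 1 := ⟨lam - 1, by omega⟩
    have h1 := Pool.Agent.V8H20.CR.clique_ineq V m G K hK.isClique hn
    rw [hKw] at h1
    have hm : (0 : ℝ) < ((m + 1 : ℕ) : ℝ) := by exact_mod_cast Nat.succ_pos m
    have hw1 : (0 : ℝ) ≤ 1 - (w : ℝ) / ((m + 1 : ℕ) : ℝ) := by
      rw [sub_nonneg, div_le_one hm]
      exact_mod_cast hwn.trans hn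
    have hq1 : (0 : ℝ) ≤ 1 - 1 / ((m + 1 : ℕ) : ℝ) := by
      rw [sub_nonneg, div_le_one hm]
      exact_mod_cast Nat.succ_pos m
    rw [Nat.add_sub_cancel]
    refine div_le_of_le_mul₀ (Nat.cast_nonneg _) (mul_nonneg hw1 (pow_nonneg hq1 _)) ?_
    rw [← mul_le_mul_iff_right₀ hm]
    refine h1.trans (le_of_eq ?_)
    field_simp

end Pool.Agent.S07963
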