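import Pool.Statements.S08782
import Pool.Agent.V8H2.SNP.Poly

/-!
# A Schur-positive chromatic symmetric function without saturated Newton polytope

The graph is the path with four vertices in which the vertices are replaced by `5`, `2`, `2`, `4`
independent vertices (consecutive classes are completely joined). Its chromatic symmetric function
is Schur-positive, it has stable partitions of the types `(9, 2, 2)` and `(7, 6)`, but none of the
type `(8, 4, 1)`, the midpoint.
-/

set_option autoImplicit false
open Pool Pool.MP_5400b1_co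

namespace Pool.Agent.S08782

/-- The negation of the preceding statement: For every finite graph G: if, for each k, its chromatic polynomial in k variables is a nonnegative integer combination of Schur polynomials, then for each k every lattice point in its Newton polytope is an exponent of that polynomial. -/
theorem result :
    ¬ (∀ (V : Type) [Fintype V] (G : SimpleGraph V),
      (∀ k : ℕ, ∃ c : YoungDiagram →₀ ℕ,
        (∑ᶠ κ : {κ : V → Fin k // ∀ u v, G.Adj u v → κ u ≠ κ v},
            ∏ v, (MvPolynomial.X ((κ.1 v : ℕ)) : MvPolynomial ℕ ℤ)) =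
          c.sum (fun μ a => a • ∑ᶠ T : {T : SemistandardYoungTableau μ //
              ∀ p ∈ μ.cells, T p.1 p.2 < k},
            ∏ p ∈ μ.cells, (MvPolynomial.X (T.1 p.1 p.2) : MvPolynomial ℕ ℤ))) →
      ∀ k : ℕ, ∀ α : ℕ →₀ ℕ,
        (fun i : ℕ => (α i : ℝ)) ∈ convexHull ℝ
          ((fun β : ℕ →₀ ℕ => (fun i : ℕ => (β i : ℝ))) ''
            ((∑ᶠ κ : {κ : V → Fin k // ∀ u v, G.Adj u v → κ u ≠ κ v},
              ∏ v, (MvPolynomial.X ((κ.1 v : ℕ)) : MvPolynomial ℕ ℤ)).support : Set (ℕ →₀ ℕ))) →
        α ∈ (∑ᶠ κ : {κ : V → Fin k // ∀ u v, G.Adj u v → κ u ≠ κ v},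
              ∏ v, (MvPolynomial.X ((κ.1 v : ℕ)) : MvPolynomial ℕ ℤ)).support) := by
  intro h
  exact Pool.Agent.V8H2.SNP.notMem_supp_841
    (h (Fin 13) Pool.Agent.V8H2.SNP.Gr
      (fun k => ⟨Pool.Agent.V8H2.SNP.csum (Pool.Agent.V8H2.SNP.vec 5 2 2 4)
        (Pool.Agent.V8H2.SNP.pts 13), Pool.Agent.V8H2.SNP.chrom_eq k⟩)
      3 _ Pool.Agent.V8H2.SNP.mem_hull)

end Pool.Agent.S08782
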