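import Pool.Statements.S09874

set_option autoImplicit false
open Pool Pool.MP_85fffe_co

namespace Pool.Agent.S09874

open Finset

/-- The set `{-k, ..., -1} ∪ {1, ..., k}` of reals. -/
noncomputable def X (k : ℕ) : Finset ℝ :=
  ((Icc (-(k : ℤ)) k).erase 0).image (fun z : ℤ => (z : ℝ))

/-- The pattern `{-1} ∪ W ∪ {k}`. -/
noncomputable def P (k : ℕ) (W : Finset ℕ) : Finset ℝ :=
  insert (-1 : ℝ) (insert (k : ℝ) (W.image (fun z : ℕ => (z : ℝ))))

theorem mem_X (k : ℕ) (x : ℝ) : x ∈ X k ↔ ∃ z : ℤ, z ≠ 0 ∧ -(k : ℤ) ≤ z ∧ z ≤ k ∧ (z : ℝ) = x := by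
  simp only [X, mem_image, mem_erase, mem_Icc]
  constructor
  · rintro ⟨z, ⟨h0, h1, h2⟩, rfl⟩
    exact ⟨z, h0, h1, h2, rfl⟩
  · rintro ⟨z, h0, h1, h2, rfl⟩
    exact ⟨z, ⟨h0, h1, h2⟩, rfl⟩

theorem mem_P (k : ℕ) (W : Finset ℕ) (x : ℝ) :
    x ∈ P k W ↔ x = -1 ∨ x = k ∨ ∃ w ∈ W, (w : ℝ) = x := by
  simp [P]

theorem card_X (k : ℕ) : (X k).card = 2 * k := by
  unfold X
  rw [card_image_of_injective _ (fun a b h => by exact_mod_cast h), card_erase_of_mem (by simp)]
  simp
  omega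

/-- Translates of `P k W` by `-s` for `s ∈ [0, k - 1] \ W` lie in `X k`. -/
theorem translate_subset (k : ℕ) (W : Finset ℕ) (hW : W ⊆ Icc 1 (k - 2)) (s : ℕ) (hs : s + 1 ≤ k)
    (hsW : s ∉ W) : (P k W).image (· + (-(s : ℝ))) ⊆ X k := by
  intro y hy
  rw [mem_image] at hy
  obtain ⟨x, hx, rfl⟩ := hy
  rw [mem_P] at hx
  rw [mem_X]
  rcases hx with rfl | rfl | ⟨w, hw, rfl⟩
  · exact ⟨-1 - s, by omega, by omega, by omega, by push_cast; ring⟩
  · exact ⟨k - s, by omega, by omega, by omega, by push_cast; ring⟩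
  · have h := mem_Icc.mp (hW hw)
    have hne : w ≠ s := fun h => hsW (h ▸ hw)
    exact ⟨w - s, by omega, by omega, by omega, by push_cast; ring⟩

/-- The negation of the preceding statement: There is a constant C such that for every finite set X of n reals, any family of maximally repeated patterns of X, no two of which are translates of each other, has at most C·n members. -/
theorem result :
    ¬ (∃ C : ℕ, ∀ X : Finset ℝ, ∀ S : Finset (Finset ℝ),
      (∀ A ∈ S,
        A.Nonempty ∧ A ⊆ X ∧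
        (∃ t : ℝ, t ≠ 0 ∧ A.image (· + t) ⊆ X) ∧
        (∀ B : Finset ℝ, A ⊂ B →
          ¬ (∀ t : ℝ, A.image (· + t) ⊆ X → B.image (· + t) ⊆ X))) →
      (∀ A ∈ S, ∀ B ∈ S, ∀ t : ℝ, B = A.image (· + t) → A = B) →
      S.card ≤ C * X.card) := by
  rintro ⟨C, hC⟩
  -- choose `j` with `2 ^ j > C * (2 * (j + 2))`
  obtain ⟨j, hj1, hj⟩ : ∃ j : ℕ, 1 ≤ j ∧ C * (2 * (j + 2)) < 2 ^ j := by
    have key : ∀ C : ℕ, C * (2 * ((2 * C + 6) + 2)) < 2 ^ (2 * C + 6) := by
      intro C
      induction C with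
      | zero => norm_num
      | succ n ih =>
        have h1 : 2 ^ (2 * (n + 1) + 6) = 4 * 2 ^ (2 * n + 6) := by
          rw [show 2 * (n + 1) + 6 = (2 * n + 6) + 2 by ring, pow_add]; ring
        rw [h1]
        have h2 : 64 ≤ 2 ^ (2 * n + 6) := by
          calc 64 = 2 ^ 6 := by norm_num
            _ ≤ 2 ^ (2 * n + 6) := Nat.pow_le_pow_right (by norm_num) (by omega)
        nlinarith
    exact ⟨2 * C + 6, by omega, key C⟩
  set k := j + 2 with hk
  have hk2 : k - 2 = j := by omega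
  have hPinj : Set.InjOn (P k) (((Icc 1 j).powerset : Finset (Finset ℕ)) : Set (Finset ℕ)) := by
    intro W hW W' hW' h
    have hW1 : W ⊆ Icc 1 j := mem_powerset.mp hW
    have hW1' : W' ⊆ Icc 1 j := mem_powerset.mp hW'
    have aux : ∀ V V' : Finset ℕ, V ⊆ Icc 1 j → P k V = P k V' → V ⊆ V' := by
      intro V V' hV hh w hw
      have h1 : (w : ℝ) ∈ P k V := (mem_P _ _ _).mpr (Or.inr (Or.inr ⟨w, hw, rfl⟩))
      rw [hh, mem_P] at h1
      have h2 := mem_Icc.mp (hV hw)
      rcases h1 with h1 | h1 | ⟨w', hw', h1⟩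
      · exfalso
        have : (0 : ℝ) ≤ w := Nat.cast_nonneg w
        linarith
      · exfalso
        have : w = k := by exact_mod_cast h1
        omega
      · have : w' = w := by exact_mod_cast h1
        exact this ▸ hw'
    exact Subset.antisymm (aux _ _ hW1 h) (aux _ _ hW1' h.symm)
  have hcard : ((Icc 1 j).powerset.image (P k)).card = 2 ^ j := by
    rw [card_image_of_injOn hPinj, card_powerset]
    simp
  have := hC (X k) ((Icc 1 j).powerset.image (P k)) ?_ ?_
  · rw [hcard, card_X] at this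
    omega
  · intro A hA
    rw [mem_image] at hA
    obtain ⟨W, hW, rfl⟩ := hA
    have hW1 : W ⊆ Icc 1 (k - 2) := by rw [hk2]; exact mem_powerset.mp hW
    have h0W : 0 ∉ W := fun h => by have := mem_Icc.mp (hW1 h); omega
    have h1W : (k - 1) ∉ W := fun h => by have := mem_Icc.mp (hW1 h); omega
    refine ⟨⟨-1, (mem_P _ _ _).mpr (Or.inl rfl)⟩, ?_, ?_, ?_⟩
    · have := translate_subset k W hW1 0 (by omega) h0W
      simpa using this
    · refine ⟨-((k - 1 : ℕ) : ℝ), ?_, translate_subset k W hW1 (k - 1) (by omega) h1W⟩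
      rw [neg_ne_zero, Nat.cast_ne_zero]
      omega
    · intro B hAB hB
      rw [ssubset_iff_exists_cons_subset] at hAB
      obtain ⟨b, hb, hbB⟩ := hAB
      have hbB' : b ∈ B := hbB (mem_cons_self _ _)
      have hmem : ∀ s : ℕ, s + 1 ≤ k → s ∉ W → b + (-(s : ℝ)) ∈ X k := fun s hs hsW =>
        hB _ (translate_subset k W hW1 s hs hsW) (mem_image_of_mem _ hbB')
      have h1 := hmem 0 (by omega) h0W
      have h2 := hmem (k - 1) (by omega) h1W
      rw [mem_X] at h1 h2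
      obtain ⟨z, hz0, hz1, hz2, hz⟩ := h1
      obtain ⟨y, hy0, hy1, hy2, hy⟩ := h2
      have hzb : (z : ℝ) = b := by rw [hz]; simp
      have hzy : y = z - ((k - 1 : ℕ) : ℤ) := by
        have : (y : ℝ) = ((z - ((k - 1 : ℕ) : ℤ) : ℤ) : ℝ) := by
          rw [hy, ← hzb]; push_cast; ring
        exact_mod_cast this
      rw [mem_P] at hb
      push Not at hb
      have hzm1 : z ≠ -1 := fun h => hb.1 (by rw [← hzb, h]; norm_num)
      have hzk : z ≠ k := fun h => hb.2.1 (by rw [← hzb, h]; norm_cast)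
      have hzpos : 0 < z := by omega
      obtain ⟨s, rfl⟩ : ∃ s : ℕ, z = s := ⟨z.toNat, by omega⟩
      have hsW : s ∉ W := fun h => hb.2.2 s h (by rw [← hzb]; norm_cast)
      have h3 := hmem s (by omega) hsW
      rw [mem_X] at h3
      obtain ⟨x, hx0, -, -, hx⟩ := h3
      apply hx0
      have : (x : ℝ) = 0 := by rw [hx, ← hzb]; push_cast; ring
      exact_mod_cast this
  · intro A hA B hB t ht
    rw [mem_image] at hA hB
    obtain ⟨W, hW, rfl⟩ := hA
    obtain ⟨V, hV, rfl⟩ := hB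
    rw [mem_powerset] at hW hV
    have bounds : ∀ U : Finset ℕ, U ⊆ Icc 1 j → ∀ x ∈ P k U, (-1 : ℝ) ≤ x ∧ x ≤ k := by
      intro U hU x hx
      rw [mem_P] at hx
      have hk0 : (0 : ℝ) ≤ k := Nat.cast_nonneg k
      rcases hx with rfl | rfl | ⟨w, hw, rfl⟩
      · exact ⟨le_refl _, by linarith⟩
      · exact ⟨by linarith, le_refl _⟩
      · have h := mem_Icc.mp (hU hw)
        have : (w : ℝ) ≤ k := by exact_mod_cast (by omega : w ≤ k)
        have h0 : (0 : ℝ) ≤ w := Nat.cast_nonneg w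
        exact ⟨by linarith, this⟩
    have e1 : (-1 : ℝ) + t ∈ P k V := by
      rw [ht]; exact mem_image_of_mem _ ((mem_P _ _ _).mpr (Or.inl rfl))
    have e2 : (k : ℝ) + t ∈ P k V := by
      rw [ht]; exact mem_image_of_mem _ ((mem_P _ _ _).mpr (Or.inr (Or.inl rfl)))
    have ht0 : t = 0 := by
      have h1 := (bounds V hV _ e1).1
      have h2 := (bounds V hV _ e2).2
      linarith
    rw [ht, ht0]
    simp

end Pool.Agent.S09874
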