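import Pool.Statements.S11006
import Pool.Agent.V8H49.Birkhoff

set_option autoImplicit false
open scoped Pointwise
open Pool Pool.MP_b7cbb2_co
open Pool.Agent.V8H49.Birkhoff

namespace Pool.Agent.S11006

/-- The negation of the preceding statement: For any finite group acting linearly on Z^n and invariant lattice polytope P whose equivariant h*-series is a polynomial, every coefficient with positive h*_i has nonzero sum over the group, i.e. contains the trivial representation. -/
theorem result :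
    ¬ (∀ (G : Type) [Group G] [Fintype G] (n : ℕ)
      (ρ : G →* Matrix.GeneralLinearGroup (Fin n) ℤ)
      (V : Finset (Fin n → ℤ)) (P : Set (Fin n → ℝ)),
      V.Nonempty →
      (∀ g : G, ∀ v ∈ V,
        Matrix.mulVec (ρ g : Matrix (Fin n) (Fin n) ℤ) v ∈ V) →
      P = convexHull ℝ
        ((fun v : Fin n → ℤ => fun j => ((v j : ℤ) : ℝ)) '' (V : Set (Fin n → ℤ))) →
      ∀ (d : ℕ) (ι : (Fin d → ℤ) →ₗ[ℤ] (Fin n → ℤ))
        (σ : G → Matrix (Fin d) (Fin d) ℤ) (Φ : G → PowerSeries ℤ),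
      Function.Injective ι →
      (∀ x : Fin n → ℤ,
        (∃ y : Fin d → ℤ, ι y = x) ↔
          (fun j => ((x j : ℤ) : ℝ)) ∈ vectorSpan ℝ P) →
      (∀ (g : G) (y : Fin d → ℤ),
        ι (Matrix.mulVec (σ g) y) =
          Matrix.mulVec (ρ g : Matrix (Fin n) (Fin n) ℤ) (ι y)) →
      (∀ g : G, Φ g =
        PowerSeries.mk (fun m : ℕ =>
          ((Set.ncard {x : Fin n → ℤ |
              (fun j => ((x j : ℤ) : ℝ)) ∈ (m : ℝ) • P ∧
              Matrix.mulVec (ρ g : Matrix (Fin n) (Fin n) ℤ) x = x} : ℕ) : ℤ))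
        * (1 - PowerSeries.X)
        * ((Matrix.det (1 - (Polynomial.X : Polynomial ℤ) •
              (σ g).map Polynomial.C) : Polynomial ℤ) : PowerSeries ℤ)) →
      (∃ N : ℕ, ∀ g : G, ∀ i : ℕ, N ≤ i →
        PowerSeries.coeff (R := ℤ) i (Φ g) = 0) →
      ∀ i : ℕ, 0 < PowerSeries.coeff (R := ℤ) i (Φ 1) →
        (∑ g : G, PowerSeries.coeff (R := ℤ) i (Φ g)) ≠ 0) := by
  intro H
  have hA : ∀ m : ℕ, {x : Fin 4 → ℤ | (fun j => ((x j : ℤ) : ℝ)) ∈ (m : ℝ) • P ∧
      Matrix.mulVec (rho 1 : Matrix (Fin 4) (Fin 4) ℤ) x = x} = A m := by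
    intro m
    ext x
    simp only [rho_one, Units.val_one, Matrix.one_mulVec, and_true, A, Set.mem_ofPred_eq]
    exact mem_smul_iff m x
  have hB : ∀ m : ℕ, {x : Fin 4 → ℤ | (fun j => ((x j : ℤ) : ℝ)) ∈ (m : ℝ) • P ∧
      Matrix.mulVec (rho (-1) : Matrix (Fin 4) (Fin 4) ℤ) x = x} = B m := by
    intro m
    ext x
    rw [rho_neg]
    simp only [B, A, Set.mem_ofPred_eq]
    rw [mem_smul_iff m x]
    rfl
  set Φ : ℤˣ → PowerSeries ℤ := fun g =>
        PowerSeries.mk (fun m : ℕ =>
          ((Set.ncard {x : Fin 4 → ℤ |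
              (fun j => ((x j : ℤ) : ℝ)) ∈ (m : ℝ) • P ∧
              Matrix.mulVec (rho g : Matrix (Fin 4) (Fin 4) ℤ) x = x} : ℕ) : ℤ))
        * (1 - PowerSeries.X)
        * ((Matrix.det (1 - (Polynomial.X : Polynomial ℤ) •
              (rho g : Matrix (Fin 4) (Fin 4) ℤ).map Polynomial.C) : Polynomial ℤ) : PowerSeries ℤ)
    with hΦ
  have h1 : Φ 1 = 1 + PowerSeries.X + PowerSeries.X ^ 2 := by
    simp only [hΦ]
    simp only [hA]
    rw [rho_one, Units.val_one, det_one, ← series_one]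
    push_cast
    ring
  have h2 : Φ (-1) = 1 - PowerSeries.X + PowerSeries.X ^ 2 := by
    have h3 : Φ (-1) * (1 + PowerSeries.X) =
        (1 - PowerSeries.X + PowerSeries.X ^ 2) * (1 + PowerSeries.X) := by
      have e : (1 - PowerSeries.X + PowerSeries.X ^ 2 : PowerSeries ℤ) * (1 + PowerSeries.X) =
          1 + PowerSeries.X ^ 3 := by ring
      rw [e, ← series_swap]
      simp only [hΦ]
      simp only [hB]
      rw [rho_neg]
      show _ * _ * ((Matrix.det (1 - (Polynomial.X : Polynomial ℤ) • gm.map Polynomial.C) :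
        Polynomial ℤ) : PowerSeries ℤ) * _ = _
      rw [det_swap]
      push_cast
      ring
    refine mul_right_cancel₀ ?_ h3
    intro h
    have := congrArg (PowerSeries.coeff (R := ℤ) 0) h
    simp at this
  have c1 : ∀ i, PowerSeries.coeff (R := ℤ) i (Φ 1) =
      (if i = 0 then 1 else 0) + (if i = 1 then 1 else 0) + (if i = 2 then 1 else 0) := by
    intro i
    rw [h1, map_add, map_add, PowerSeries.coeff_one, PowerSeries.coeff_X, PowerSeries.coeff_X_pow]
  have c2 : ∀ i, PowerSeries.coeff (R := ℤ) i (Φ (-1)) =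
      (if i = 0 then 1 else 0) - (if i = 1 then 1 else 0) + (if i = 2 then 1 else 0) := by
    intro i
    rw [h2, map_add, map_sub, PowerSeries.coeff_one, PowerSeries.coeff_X, PowerSeries.coeff_X_pow]
  refine H ℤˣ 4 rho V P ⟨vert 0, by simp [V]⟩ ?_ rfl 4 LinearMap.id
    (fun g => (rho g : Matrix (Fin 4) (Fin 4) ℤ)) Φ (fun _ _ h => h) ?_ ?_ (fun g => rfl) ?_ 1 ?_ ?_
  · intro g v hv
    rcases Int.units_eq_one_or g with rfl | rfl
    · rw [rho_one, Units.val_one, Matrix.one_mulVec]
      exact hv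
    · rw [rho_neg]
      show Matrix.mulVec gm v ∈ V
      rw [gm_mulVec]
      simp only [V, Finset.mem_image, Finset.mem_univ, true_and] at hv ⊢
      obtain ⟨i, rfl⟩ := hv
      fin_cases i
      · exact ⟨3, by decide⟩
      · exact ⟨4, by decide⟩
      · exact ⟨5, by decide⟩
      · exact ⟨0, by decide⟩
      · exact ⟨1, by decide⟩
      · exact ⟨2, by decide⟩
  · intro x
    rw [span_top]
    exact ⟨fun _ => trivial, fun _ => ⟨x, rfl⟩⟩
  · intro g y
    rfl
  · refine ⟨3, ?_⟩
    intro g i hi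
    rcases Int.units_eq_one_or g with rfl | rfl
    · rw [c1, if_neg (by omega), if_neg (by omega), if_neg (by omega)]
      rfl
    · rw [c2, if_neg (by omega), if_neg (by omega), if_neg (by omega)]
      rfl
  · rw [c1]
    norm_num
  · rw [show (Finset.univ : Finset ℤˣ) = {1, -1} from rfl, Finset.sum_pair (by decide), c1, c2]
    norm_num

end Pool.Agent.S11006
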