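import Pool.Statements.S11608

/-!
# Hereditary graph properties: factorization into irreducible properties is not unique

Let `A = 2 K_2` and `B = P_3 ∪ K_1`. Both have four vertices, two edges and a connected complement.
Let `P` be the property of being isomorphic to a subgraph of `A` or of `B`, and let `Q` be the
property of being isomorphic to a subgraph of the join `A + A` or of the join `B + B`. Then
`P · P · P = P · Q`, and `P` and `Q` are irreducible.
-/

set_option autoImplicit false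
open Pool Pool.MP_d1f9c8_co

namespace Pool.Agent.S11608

open SimpleGraph

/-- `2 K_2`. -/
def A : SimpleGraph (Fin 4) where
  Adj a b := (a = 0 ∧ b = 1) ∨ (a = 1 ∧ b = 0) ∨ (a = 2 ∧ b = 3) ∨ (a = 3 ∧ b = 2)
  symm := ⟨by decide⟩
  loopless := ⟨by decide⟩

/-- `P_3 ∪ K_1`. -/
def B : SimpleGraph (Fin 4) where
  Adj a b := (a = 0 ∧ b = 1) ∨ (a = 1 ∧ b = 0) ∨ (a = 1 ∧ b = 2) ∨ (a = 2 ∧ b = 1)
  symm := ⟨by decide⟩
  loopless := ⟨by decide⟩

instance : DecidableRel A.Adj := fun a b => by unfold A; infer_instance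
instance : DecidableRel B.Adj := fun a b => by unfold B; infer_instance

/-- The relation of the join of two graphs. -/
def jadj (X Y : SimpleGraph (Fin 4)) : Fin 4 ⊕ Fin 4 → Fin 4 ⊕ Fin 4 → Prop
  | .inl a, .inl b => X.Adj a b
  | .inr a, .inr b => Y.Adj a b
  | .inl _, .inr _ => True
  | .inr _, .inl _ => True

/-- The join of two graphs. -/
def J (X Y : SimpleGraph (Fin 4)) : SimpleGraph (Fin 4 ⊕ Fin 4) where
  Adj := jadj X Y
  symm := ⟨by
    rintro (a | a) (b | b) h
    · exact (show X.Adj a b from h).symm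
    · trivial
    · trivial
    · exact (show Y.Adj a b from h).symm⟩
  loopless := ⟨by
    rintro (a | a) h
    · exact X.irrefl h
    · exact Y.irrefl h⟩

instance (X Y : SimpleGraph (Fin 4)) [DecidableRel X.Adj] [DecidableRel Y.Adj] :
    DecidableRel (J X Y).Adj
  | .inl a, .inl b => inferInstanceAs (Decidable (X.Adj a b))
  | .inr a, .inr b => inferInstanceAs (Decidable (Y.Adj a b))
  | .inl _, .inr _ => inferInstanceAs (Decidable True)
  | .inr _, .inl _ => inferInstanceAs (Decidable True)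

/-- `G` is isomorphic to a subgraph of `H`. -/
def Emb {V W : Type} (G : SimpleGraph V) (H : SimpleGraph W) : Prop :=
  ∃ f : G →g H, Function.Injective f

lemma Emb.refl {V : Type} (G : SimpleGraph V) : Emb G G := ⟨Hom.id, fun _ _ h => h⟩

lemma Emb.trans {U V W : Type} {F : SimpleGraph U} {G : SimpleGraph V} {H : SimpleGraph W}
    (h1 : Emb F G) (h2 : Emb G H) : Emb F H := by
  obtain ⟨f, hf⟩ := h1
  obtain ⟨g, hg⟩ := h2
  exact ⟨g.comp f, hg.comp hf⟩

lemma Emb.of_iso {V W : Type} {G : SimpleGraph V} {H : SimpleGraph W} (e : G ≃g H) : Emb G H :=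
  ⟨e.toHom, e.injective⟩

/-- Closure under (isomorphic copies of) subgraphs. -/
def Closed (R : (n : ℕ) → SimpleGraph (Fin n) → Prop) : Prop :=
  ∀ (a b : ℕ) (G : SimpleGraph (Fin a)) (H : SimpleGraph (Fin b)) (f : H →g G),
    Function.Injective f → R a G → R b H

/-- A graph with an arbitrary vertex type has the property `R`. -/
def Ext (R : (n : ℕ) → SimpleGraph (Fin n) → Prop) {V : Type} (G : SimpleGraph V) : Prop :=
  ∃ (r : ℕ) (K : SimpleGraph (Fin r)), R r K ∧ Emb G K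

lemma Ext.mono {R : (n : ℕ) → SimpleGraph (Fin n) → Prop} {V W : Type} {G : SimpleGraph V}
    {H : SimpleGraph W} (h : Ext R H) (e : Emb G H) : Ext R G := by
  obtain ⟨r, K, hK, h⟩ := h
  exact ⟨r, K, hK, e.trans h⟩

lemma ext_iff_iso {R : (n : ℕ) → SimpleGraph (Fin n) → Prop} (hR : Closed R) {V : Type} [Finite V]
    (G : SimpleGraph V) :
    (∃ (r : ℕ) (K : SimpleGraph (Fin r)), R r K ∧ Nonempty (G ≃g K)) ↔ Ext R G := by
  constructor
  · rintro ⟨r, K, hK, ⟨e⟩⟩
    exact ⟨r, K, hK, Emb.of_iso e⟩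
  · rintro ⟨r, K, hK, f, hf⟩
    let e : V ≃ Fin (Nat.card V) := Finite.equivFin V
    refine ⟨Nat.card V, G.comap e.symm, ?_, ⟨(Iso.comap e.symm G).symm⟩⟩
    refine hR r _ K _ (f.comp (Iso.comap e.symm G).toHom) ?_ hK
    exact hf.comp (Iso.comap e.symm G).injective

lemma ext_fin {R : (n : ℕ) → SimpleGraph (Fin n) → Prop} (hR : Closed R) {n : ℕ}
    (G : SimpleGraph (Fin n)) : Ext R G ↔ R n G := by
  constructor
  · rintro ⟨r, K, hK, f, hf⟩
    exact hR r n K G f hf hK
  · intro h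
    exact ⟨n, G, h, Emb.refl G⟩


/-- Abstract form of a product decomposition, for graphs with arbitrary finite vertex types. -/
lemma prod_ext {Z R S : (n : ℕ) → SimpleGraph (Fin n) → Prop} (hR : Closed R) (hS : Closed S)
    (hZ : ∀ (n : ℕ) (G : SimpleGraph (Fin n)),
      (Z n G ↔ ∃ T : Set (Fin n),
        (∃ (r : ℕ) (K : SimpleGraph (Fin r)), R r K ∧ Nonempty (G.induce T ≃g K)) ∧
        (∃ (r : ℕ) (K : SimpleGraph (Fin r)), S r K ∧ Nonempty (G.induce Tᶜ ≃g K))))
    (hZc : Closed Z) {V : Type} [Finite V] (G : SimpleGraph V) :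
    Ext Z G ↔ ∃ T : Set V, Ext R (G.induce T) ∧ Ext S (G.induce Tᶜ) := by
  classical
  let e : V ≃ Fin (Nat.card V) := Finite.equivFin V
  let H : SimpleGraph (Fin (Nat.card V)) := G.comap e.symm
  have iso : H ≃g G := Iso.comap e.symm G
  have h1 : Ext Z G ↔ Z _ H := by
    rw [← ext_fin hZc]
    exact ⟨fun h => h.mono (Emb.of_iso iso), fun h => h.mono (Emb.of_iso iso.symm)⟩
  rw [h1, hZ]
  constructor
  · rintro ⟨T, hT1, hT2⟩
    rw [ext_iff_iso hR] at hT1
    rw [ext_iff_iso hS] at hT2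
    refine ⟨e ⁻¹' T, hT1.mono ?_, hT2.mono ?_⟩
    · refine ⟨⟨fun v => ⟨e v.1, v.2⟩, ?_⟩, ?_⟩
      · intro a b hab
        simpa [H] using hab
      · intro a b hab
        have : e a.1 = e b.1 := congrArg Subtype.val hab
        exact Subtype.ext (e.injective this)
    · refine ⟨⟨fun v => ⟨e v.1, v.2⟩, ?_⟩, ?_⟩
      · intro a b hab
        simpa [H] using hab
      · intro a b hab
        have : e a.1 = e b.1 := congrArg Subtype.val hab
        exact Subtype.ext (e.injective this)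
  · rintro ⟨T, hT1, hT2⟩
    refine ⟨e.symm ⁻¹' T, ?_, ?_⟩
    · rw [ext_iff_iso hR]
      refine hT1.mono ⟨⟨fun v => ⟨e.symm v.1, v.2⟩, ?_⟩, ?_⟩
      · intro a b hab
        simpa [H] using hab
      · intro a b hab
        have : e.symm a.1 = e.symm b.1 := congrArg Subtype.val hab
        exact Subtype.ext (e.symm.injective this)
    · rw [ext_iff_iso hS]
      refine hT2.mono ⟨⟨fun v => ⟨e.symm v.1, v.2⟩, ?_⟩, ?_⟩
      · intro a b hab
        simpa [H] using hab
      · intro a b hab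
        have : e.symm a.1 = e.symm b.1 := congrArg Subtype.val hab
        exact Subtype.ext (e.symm.injective this)

/-- The property of being isomorphic to a subgraph of `X` or of `Y`. -/
def Gen {V : Type} (X Y : SimpleGraph V) (n : ℕ) (G : SimpleGraph (Fin n)) : Prop :=
  Emb G X ∨ Emb G Y

lemma gen_closed {V : Type} (X Y : SimpleGraph V) : Closed (Gen X Y) := by
  rintro a b G H f hf (h | h)
  · exact Or.inl (Emb.trans ⟨f, hf⟩ h)
  · exact Or.inr (Emb.trans ⟨f, hf⟩ h)

lemma ext_gen {V W : Type} [Finite V] (X Y : SimpleGraph V) (G : SimpleGraph W) :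
    Ext (Gen X Y) G ↔ Emb G X ∨ Emb G Y := by
  constructor
  · rintro ⟨r, K, h | h, e⟩
    · exact Or.inl (e.trans h)
    · exact Or.inr (e.trans h)
  · let e : V ≃ Fin (Nat.card V) := Finite.equivFin V
    rintro (h | h)
    · have iso : X.comap e.symm ≃g X := Iso.comap e.symm X
      exact ⟨_, _, Or.inl (Emb.of_iso iso), h.trans (Emb.of_iso iso.symm)⟩
    · have iso : Y.comap e.symm ≃g Y := Iso.comap e.symm Y
      exact ⟨_, _, Or.inr (Emb.of_iso iso), h.trans (Emb.of_iso iso.symm)⟩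

/-- The number of ordered pairs of adjacent vertices. -/
noncomputable def ec {V : Type} (G : SimpleGraph V) : ℕ := {p : V × V | G.Adj p.1 p.2}.ncard

lemma Emb.ec_le {V W : Type} [Finite W] {G : SimpleGraph V} {H : SimpleGraph W} (h : Emb G H) :
    ec G ≤ ec H := by
  obtain ⟨f, hf⟩ := h
  refine Set.ncard_le_ncard_of_injOn (fun p => (f p.1, f p.2)) ?_ ?_ (Set.toFinite _)
  · rintro ⟨a, b⟩ h
    exact f.map_rel h
  · rintro ⟨a, b⟩ - ⟨c, d⟩ - h
    simp only [Prod.mk.injEq] at h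
    rw [hf h.1, hf h.2]

/-- **The partition of an extremal graph of a product.** If `X` and `Y` have the same number of
adjacent pairs and the property generated by them is a product `R · S`, then a partition of `X`
for the product has two nonempty parts which are completely joined. -/
lemma parts {V : Type} [Finite V] {X Y : SimpleGraph V} (hXY : ec X = ec Y)
    {R S : (n : ℕ) → SimpleGraph (Fin n) → Prop} (hR : Closed R) (hS : Closed S)
    (hR1 : R 1 ⊥) (hS1 : S 1 ⊥)
    (hZ : ∀ (n : ℕ) (G : SimpleGraph (Fin n)),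
      (Gen X Y n G ↔ ∃ T : Set (Fin n),
        (∃ (r : ℕ) (K : SimpleGraph (Fin r)), R r K ∧ Nonempty (G.induce T ≃g K)) ∧
        (∃ (r : ℕ) (K : SimpleGraph (Fin r)), S r K ∧ Nonempty (G.induce Tᶜ ≃g K))))
    {W : SimpleGraph V} (hW : W = X ∨ W = Y) :
    ∃ T : Set V, Ext R (W.induce T) ∧ Ext S (W.induce Tᶜ) ∧ T.Nonempty ∧ Tᶜ.Nonempty ∧
      ∀ u ∈ T, ∀ v ∉ T, W.Adj u v := by
  have key := fun {U : Type} [Finite U] (G : SimpleGraph U) =>
    prod_ext hR hS hZ (gen_closed X Y) G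
  have hec : ec X = ec W ∧ ec Y = ec W := by
    rcases hW with rfl | rfl
    · exact ⟨rfl, hXY.symm⟩
    · exact ⟨hXY, rfl⟩
  have h1 : Ext (Gen X Y) W := by
    rw [ext_gen]
    rcases hW with rfl | rfl
    · exact Or.inl (Emb.refl _)
    · exact Or.inr (Emb.refl _)
  obtain ⟨T, hT1, hT2⟩ := (key W).1 h1
  -- a graph with one more vertex has not the property
  have big : ∀ G : SimpleGraph (Option V), ¬ Ext (Gen X Y) G := by
    intro G h
    rw [ext_gen] at h
    have : ∃ f : Option V → V, Function.Injective f := by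
      rcases h with ⟨f, hf⟩ | ⟨f, hf⟩
      · exact ⟨f, hf⟩
      · exact ⟨f, hf⟩
    obtain ⟨f, hf⟩ := this
    have h2 := Nat.card_le_card_of_injective f hf
    rw [Finite.card_option] at h2
    omega
  have one : ∀ (F : (n : ℕ) → SimpleGraph (Fin n) → Prop), F 1 ⊥ →
      ∀ {U : Type} [Subsingleton U] (G : SimpleGraph U), Ext F G := by
    intro F hF U _ G
    refine ⟨1, ⊥, hF, ⟨⟨fun _ => 0, ?_⟩, fun a b _ => Subsingleton.elim a b⟩⟩
    intro a b hab
    exact absurd (Subsingleton.elim a b) hab.ne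
  let W' : SimpleGraph (Option V) :=
    { Adj := fun u v => ∃ a b, u = some a ∧ v = some b ∧ W.Adj a b
      symm := ⟨by
        rintro u v ⟨a, b, h1, h2, h3⟩
        exact ⟨b, a, h2, h1, h3.symm⟩⟩
      loopless := ⟨by
        rintro u ⟨a, b, h1, h2, h3⟩
        rw [h1] at h2
        rw [Option.some.inj h2] at h3
        exact W.irrefl h3⟩ }
  have hsub : ∀ D : Set (Option V), none ∉ D → Emb (W'.induce D) W := by
    intro D hD
    have hs : ∀ v : D, ∃ w : V, some w = v.1 := by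
      rintro ⟨v | w, hv⟩
      · exact absurd hv hD
      · exact ⟨w, rfl⟩
    choose f hf using hs
    refine ⟨⟨f, ?_⟩, ?_⟩
    · intro a b hab
      have hab' : W'.Adj a.1 b.1 := hab
      obtain ⟨x, y, h1, h2, h3⟩ := hab'
      rw [← hf a] at h1
      rw [← hf b] at h2
      rw [Option.some.inj h1, Option.some.inj h2]
      exact h3
    · intro a b hab
      have hab' : f a = f b := hab
      have := hf a
      rw [hab', hf b] at this
      exact Subtype.ext this.symm
  have hTne : T.Nonempty := by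
    by_contra hne
    rw [Set.not_nonempty_iff_eq_empty] at hne
    subst hne
    refine big W' ((key W').2 ⟨{none}, one R hR1 _, ?_⟩)
    refine hT2.mono ((hsub _ (by simp)).trans ?_)
    exact ⟨⟨fun v => ⟨v, by simp⟩, fun h => h⟩, fun a b h => congrArg Subtype.val h⟩
  have hTcne : Tᶜ.Nonempty := by
    by_contra hne
    rw [Set.not_nonempty_iff_eq_empty] at hne
    have hu : T = Set.univ := by
      rw [← compl_compl T, hne, Set.compl_empty]
    refine big W' ((key W').2 ⟨{none}ᶜ, ?_, ?_⟩)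
    · refine hT1.mono ((hsub _ (by simp)).trans ?_)
      exact ⟨⟨fun v => ⟨v, by rw [hu]; trivial⟩, fun h => h⟩, fun a b h => congrArg Subtype.val h⟩
    · rw [compl_compl]
      exact one S hS1 _
  refine ⟨T, hT1, hT2, hTne, hTcne, ?_⟩
  -- add all edges between the parts
  let G' : SimpleGraph V :=
    { Adj := fun u v => W.Adj u v ∨ (u ∈ T ∧ v ∉ T) ∨ (u ∉ T ∧ v ∈ T)
      symm := ⟨by
        rintro u v (h | h | h)
        · exact Or.inl h.symm
        · exact Or.inr (Or.inr ⟨h.2, h.1⟩)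
        · exact Or.inr (Or.inl ⟨h.2, h.1⟩)⟩
      loopless := ⟨by
        rintro u (h | h | h)
        · exact W.irrefl h
        · exact h.2 h.1
        · exact h.1 h.2⟩ }
  have h2 : Ext (Gen X Y) G' := by
    refine (key G').2 ⟨T, hT1.mono ⟨⟨fun v => v, ?_⟩, fun _ _ h => h⟩,
      hT2.mono ⟨⟨fun v => v, ?_⟩, fun _ _ h => h⟩⟩
    · rintro ⟨a, ha⟩ ⟨b, hb⟩ (h | h | h)
      · exact h
      · exact absurd hb h.2
      · exact absurd ha h.1
    · rintro ⟨a, ha⟩ ⟨b, hb⟩ (h | h | h)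
      · exact h
      · exact absurd h.1 ha
      · exact absurd h.2 hb
  have h3 : ec G' ≤ ec W := by
    rw [ext_gen] at h2
    rcases h2 with h2 | h2
    · rw [← hec.1]; exact h2.ec_le
    · rw [← hec.2]; exact h2.ec_le
  have h4 : {p : V × V | W.Adj p.1 p.2} = {p : V × V | G'.Adj p.1 p.2} :=
    Set.eq_of_subset_of_ncard_le (fun p hp => Or.inl hp) h3 (Set.toFinite _)
  intro u hu v hv
  have h5 : (u, v) ∈ {p : V × V | G'.Adj p.1 p.2} := Or.inr (Or.inl ⟨hu, hv⟩)
  rw [← h4] at h5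
  exact h5

lemma ecA : ec A = 4 := by
  unfold ec
  rw [Set.ncard_eq_toFinset_card']
  decide

lemma ecB : ec B = 4 := by
  unfold ec
  rw [Set.ncard_eq_toFinset_card']
  decide

lemma ecAA : ec (J A A) = 40 := by
  unfold ec
  rw [Set.ncard_eq_toFinset_card']
  decide

lemma ecBB : ec (J B B) = 40 := by
  unfold ec
  rw [Set.ncard_eq_toFinset_card']
  decide

/-- Sets which are closed under non-adjacency in `A`. -/
lemma coconnA (T : Set (Fin 4)) (h : ∀ u ∈ T, ∀ v ∉ T, A.Adj u v) (u : Fin 4) (hu : u ∈ T) :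
    ∀ v, v ∈ T := by
  have h' : ∀ u v, u ∈ T → ¬ A.Adj u v → v ∈ T := fun u v hu hv => by
    by_contra hn
    exact hv (h u hu v hn)
  have e02 : 0 ∈ T ↔ 2 ∈ T := ⟨fun t => h' 0 2 t (by decide), fun t => h' 2 0 t (by decide)⟩
  have e03 : 0 ∈ T ↔ 3 ∈ T := ⟨fun t => h' 0 3 t (by decide), fun t => h' 3 0 t (by decide)⟩
  have e12 : 1 ∈ T ↔ 2 ∈ T := ⟨fun t => h' 1 2 t (by decide), fun t => h' 2 1 t (by decide)⟩
  intro v
  fin_cases u <;> fin_cases v <;> simp_all

lemma coconnB (T : Set (Fin 4)) (h : ∀ u ∈ T, ∀ v ∉ T, B.Adj u v) (u : Fin 4) (hu : u ∈ T) :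
    ∀ v, v ∈ T := by
  have h' : ∀ u v, u ∈ T → ¬ B.Adj u v → v ∈ T := fun u v hu hv => by
    by_contra hn
    exact hv (h u hu v hn)
  have e02 : 0 ∈ T ↔ 3 ∈ T := ⟨fun t => h' 0 3 t (by decide), fun t => h' 3 0 t (by decide)⟩
  have e03 : 1 ∈ T ↔ 3 ∈ T := ⟨fun t => h' 1 3 t (by decide), fun t => h' 3 1 t (by decide)⟩
  have e12 : 2 ∈ T ↔ 3 ∈ T := ⟨fun t => h' 2 3 t (by decide), fun t => h' 3 2 t (by decide)⟩
  intro v
  fin_cases u <;> fin_cases v <;> simp_all

/-- `P = {subgraphs of A or B}`, with `K_1`. -/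
lemma P_one {V : Type} [Nonempty V] (X Y : SimpleGraph V) : Gen X Y 1 ⊥ := by
  refine Or.inl ⟨⟨fun _ => Classical.arbitrary V, ?_⟩, fun a b _ => Subsingleton.elim a b⟩
  intro a b hab
  exact absurd hab (by simp)

/-- The complement of `X` is connected, in the form used here. -/
def CoConn (X : SimpleGraph (Fin 4)) : Prop :=
  ∀ T : Set (Fin 4), (∀ u ∈ T, ∀ v ∉ T, X.Adj u v) → ∀ u ∈ T, ∀ v, v ∈ T

lemma irredP (A' B' : (n : ℕ) → SimpleGraph (Fin n) → Prop) (hA : Closed A') (hB : Closed B')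
    (hA1 : A' 1 ⊥) (hB1 : B' 1 ⊥) :
    ¬ ∀ (n : ℕ) (G : SimpleGraph (Fin n)),
      (Gen A B n G ↔ ∃ T : Set (Fin n),
        (∃ (r : ℕ) (K : SimpleGraph (Fin r)), A' r K ∧ Nonempty (G.induce T ≃g K)) ∧
        (∃ (r : ℕ) (K : SimpleGraph (Fin r)), B' r K ∧ Nonempty (G.induce Tᶜ ≃g K))) := by
  intro hZ
  obtain ⟨T, -, -, ⟨u, hu⟩, ⟨v, hv⟩, h⟩ :=
    parts (ecA.trans ecB.symm) hA hB hA1 hB1 hZ (W := A) (Or.inl rfl)
  exact hv (coconnA T h u hu v)

/-- The parts of a join of a graph with itself. -/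
lemma parts_J {X : SimpleGraph (Fin 4)} (hX : CoConn X)
    {R S : (n : ℕ) → SimpleGraph (Fin n) → Prop}
    (h : ∃ T : Set (Fin 4 ⊕ Fin 4), Ext R ((J X X).induce T) ∧ Ext S ((J X X).induce Tᶜ) ∧
      T.Nonempty ∧ Tᶜ.Nonempty ∧ ∀ u ∈ T, ∀ v ∉ T, (J X X).Adj u v) :
    Ext R X ∧ Ext S X := by
  obtain ⟨T, hT1, hT2, ⟨u, hu⟩, ⟨v, hv⟩, h⟩ := h
  have hl : ∀ a, .inl a ∈ T → ∀ b, .inl b ∈ T := by
    intro a ha b
    exact hX {x : Fin 4 | (Sum.inl x : Fin 4 ⊕ Fin 4) ∈ T} (fun x hx y hy => h (.inl x) hx (.inl y) hy) a ha b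
  have hr : ∀ a, .inr a ∈ T → ∀ b, .inr b ∈ T := by
    intro a ha b
    exact hX {x : Fin 4 | (Sum.inr x : Fin 4 ⊕ Fin 4) ∈ T} (fun x hx y hy => h (.inr x) hx (.inr y) hy) a ha b
  rcases u with u | u
  · have hnr : ∀ b, .inr b ∉ T := by
      intro b hb
      rcases v with v | v
      · exact hv (hl u hu v)
      · exact hv (hr b hb v)
    exact ⟨hT1.mono ⟨⟨fun x => ⟨.inl x, hl u hu x⟩, fun h => h⟩,
        fun a b h => Sum.inl.inj (congrArg Subtype.val h)⟩,
      hT2.mono ⟨⟨fun x => ⟨.inr x, hnr x⟩, fun h => h⟩,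
        fun a b h => Sum.inr.inj (congrArg Subtype.val h)⟩⟩
  · have hnl : ∀ b, .inl b ∉ T := by
      intro b hb
      rcases v with v | v
      · exact hv (hl b hb v)
      · exact hv (hr u hu v)
    exact ⟨hT1.mono ⟨⟨fun x => ⟨.inr x, hr u hu x⟩, fun h => h⟩,
        fun a b h => Sum.inr.inj (congrArg Subtype.val h)⟩,
      hT2.mono ⟨⟨fun x => ⟨.inl x, hnl x⟩, fun h => h⟩,
        fun a b h => Sum.inl.inj (congrArg Subtype.val h)⟩⟩

lemma degree_le {V W : Type} [Fintype V] [Fintype W] {G : SimpleGraph V} {H : SimpleGraph W}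
    [DecidableRel G.Adj] [DecidableRel H.Adj] (f : G →g H) (hf : Function.Injective f) (v : V) :
    G.degree v ≤ H.degree (f v) := by
  unfold SimpleGraph.degree
  refine Finset.card_le_card_of_injOn f ?_ hf.injOn
  intro w hw
  simp only [Finset.mem_coe, mem_neighborFinset] at hw ⊢
  exact f.map_rel hw

lemma not_emb_AA : ¬ Emb (J A B) (J A A) := by
  rintro ⟨f, hf⟩
  have h1 := degree_le f hf (.inr 1)
  have h2 : ∀ v, (J A A).degree v ≤ 5 := by decide
  have h3 : (J A B).degree (.inr 1) = 6 := by decide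
  have h4 := h2 (f (.inr 1))
  omega

lemma not_emb_BB : ¬ Emb (J A B) (J B B) := by
  rintro ⟨f, hf⟩
  have hs : Function.Surjective f := Finite.surjective_of_injective hf
  obtain ⟨u, hu⟩ := hs (.inl 3)
  obtain ⟨v, hv⟩ := hs (.inr 3)
  have h1 := degree_le f hf u
  have h2 := degree_le f hf v
  rw [hu, show (J B B).degree (.inl 3) = 4 by decide] at h1
  rw [hv, show (J B B).degree (.inr 3) = 4 by decide] at h2
  have h3 : ∀ w, (J A B).degree w ≤ 4 → w = .inr 3 := by decide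
  rw [h3 u h1] at hu
  rw [h3 v h2] at hv
  rw [hu] at hv
  exact absurd hv (by simp)

lemma irredQ (A' B' : (n : ℕ) → SimpleGraph (Fin n) → Prop) (hA : Closed A') (hB : Closed B')
    (hA1 : A' 1 ⊥) (hB1 : B' 1 ⊥) :
    ¬ ∀ (n : ℕ) (G : SimpleGraph (Fin n)),
      (Gen (J A A) (J B B) n G ↔ ∃ T : Set (Fin n),
        (∃ (r : ℕ) (K : SimpleGraph (Fin r)), A' r K ∧ Nonempty (G.induce T ≃g K)) ∧
        (∃ (r : ℕ) (K : SimpleGraph (Fin r)), B' r K ∧ Nonempty (G.induce Tᶜ ≃g K))) := by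
  intro hZ
  have h1 := parts_J coconnA
    (parts (ecAA.trans ecBB.symm) hA hB hA1 hB1 hZ (W := J A A) (Or.inl rfl))
  have h2 := parts_J coconnB
    (parts (ecAA.trans ecBB.symm) hA hB hA1 hB1 hZ (W := J B B) (Or.inr rfl))
  have h3 : Ext (Gen (J A A) (J B B)) (J A B) := by
    rw [prod_ext hA hB hZ (gen_closed _ _)]
    refine ⟨Set.range .inl, h1.1.mono ?_, h2.2.mono ?_⟩
    · have hs : ∀ v : Set.range (Sum.inl : Fin 4 → Fin 4 ⊕ Fin 4), ∃ w, Sum.inl w = v.1 := by
        rintro ⟨v, w, hw⟩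
        exact ⟨w, hw⟩
      choose f hf using hs
      refine ⟨⟨f, ?_⟩, ?_⟩
      · intro a b hab
        have hab' : (J A B).Adj a.1 b.1 := hab
        rw [← hf a, ← hf b] at hab'
        exact hab'
      · intro a b hab
        have hab' : f a = f b := hab
        have := hf a
        rw [hab', hf b] at this
        exact Subtype.ext this.symm
    · have hs : ∀ v : ((Set.range (Sum.inl : Fin 4 → Fin 4 ⊕ Fin 4))ᶜ : Set _),
          ∃ w, Sum.inr w = v.1 := by
        rintro ⟨v | v, hv⟩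
        · exact absurd ⟨v, rfl⟩ hv
        · exact ⟨v, rfl⟩
      choose f hf using hs
      refine ⟨⟨f, ?_⟩, ?_⟩
      · intro a b hab
        have hab' : (J A B).Adj a.1 b.1 := hab
        rw [← hf a, ← hf b] at hab'
        exact hab'
      · intro a b hab
        have hab' : f a = f b := hab
        have := hf a
        rw [hab', hf b] at this
        exact Subtype.ext this.symm
  rw [ext_gen] at h3
  exact h3.elim not_emb_AA not_emb_BB

/-- Two parts which are subgraphs of `X` form a subgraph of `J X X`. -/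
lemma emb_union {X : SimpleGraph (Fin 4)} {n : ℕ} {G : SimpleGraph (Fin n)} {S T U : Set (Fin n)}
    (hS : Emb (G.induce S) X) (hT : Emb (G.induce T) X) (hU : ∀ v ∈ U, v ∈ S ∨ v ∈ T) :
    Emb (G.induce U) (J X X) := by
  classical
  obtain ⟨f, hf⟩ := hS
  obtain ⟨g, hg⟩ := hT
  have hTm : ∀ v : U, v.1 ∉ S → v.1 ∈ T := fun v hv => (hU v.1 v.2).resolve_left hv
  refine ⟨⟨fun v => if h : v.1 ∈ S then .inl (f ⟨v.1, h⟩) else .inr (g ⟨v.1, hTm v h⟩), ?_⟩, ?_⟩
  · intro a b hab
    have hab' : G.Adj a.1 b.1 := hab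
    by_cases ha : a.1 ∈ S <;> by_cases hb : b.1 ∈ S
    · simp only [ha, hb, dite_true]
      exact f.map_rel (show (G.induce S).Adj ⟨a.1, ha⟩ ⟨b.1, hb⟩ from hab')
    · simp only [ha, hb, dite_true, dite_false]
      trivial
    · simp only [ha, hb, dite_true, dite_false]
      trivial
    · simp only [ha, hb, dite_false]
      exact g.map_rel (show (G.induce T).Adj ⟨a.1, hTm a ha⟩ ⟨b.1, hTm b hb⟩ from hab')
  · intro a b hab
    by_cases ha : a.1 ∈ S <;> by_cases hb : b.1 ∈ S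
    · simp only [RelHom.coeFn_mk, ha, hb, dite_true, Sum.inl.injEq] at hab
      exact Subtype.ext (Subtype.mk.inj (hf hab))
    · simp [ha, hb] at hab
    · simp [ha, hb] at hab
    · simp only [RelHom.coeFn_mk, ha, hb, dite_false, Sum.inr.injEq] at hab
      exact Subtype.ext (Subtype.mk.inj (hg hab))

/-- A subgraph of `J X X` splits into two subgraphs of `X`. -/
lemma emb_split {X : SimpleGraph (Fin 4)} {n : ℕ} {G : SimpleGraph (Fin n)} {U : Set (Fin n)}
    (hU : Emb (G.induce U) (J X X)) :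
    ∃ S : Set (Fin n), Emb (G.induce {v | v ∈ U ∧ v ∈ S}) X ∧
      Emb (G.induce {v | v ∈ U ∧ v ∉ S}) X := by
  classical
  obtain ⟨f, hf⟩ := hU
  let S : Set (Fin n) := {v | ∃ h : v ∈ U, ∃ a, f ⟨v, h⟩ = .inl a}
  have hs : ∀ v : {v | v ∈ U ∧ v ∈ S}, ∃ a, f ⟨v.1, v.2.1⟩ = .inl a := by
    rintro ⟨v, hv, hv', a, ha⟩
    exact ⟨a, ha⟩
  have ht : ∀ v : {v | v ∈ U ∧ v ∉ S}, ∃ a, f ⟨v.1, v.2.1⟩ = .inr a := by
    rintro ⟨v, hv, hv'⟩
    rcases h : f ⟨v, hv⟩ with a | a
    · exact absurd ⟨hv, a, h⟩ hv'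
    · exact ⟨a, rfl⟩
  choose g hg using hs
  choose g' hg' using ht
  refine ⟨S, ⟨⟨g, ?_⟩, ?_⟩, ⟨⟨g', ?_⟩, ?_⟩⟩
  · intro a b hab
    have h1 : (J X X).Adj (f ⟨a.1, a.2.1⟩) (f ⟨b.1, b.2.1⟩) :=
      f.map_rel (show (G.induce U).Adj ⟨a.1, a.2.1⟩ ⟨b.1, b.2.1⟩ from hab)
    rw [hg, hg] at h1
    exact h1
  · intro a b hab
    have hab' : g a = g b := hab
    have h1 := hg a
    rw [hab', ← hg b] at h1
    exact Subtype.ext (Subtype.mk.inj (hf h1))
  · intro a b hab
    have h1 : (J X X).Adj (f ⟨a.1, a.2.1⟩) (f ⟨b.1, b.2.1⟩) :=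
      f.map_rel (show (G.induce U).Adj ⟨a.1, a.2.1⟩ ⟨b.1, b.2.1⟩ from hab)
    rw [hg', hg'] at h1
    exact h1
  · intro a b hab
    have hab' : g' a = g' b := hab
    have h1 := hg' a
    rw [hab', ← hg' b] at h1
    exact Subtype.ext (Subtype.mk.inj (hf h1))

/-- The three equal factors. -/
def Ps : Fin 3 → (n : ℕ) → SimpleGraph (Fin n) → Prop := fun _ => Gen A B

/-- The two factors of the second factorization. -/
def Qs : Fin 2 → (n : ℕ) → SimpleGraph (Fin n) → Prop :=
  fun j => if j = 0 then Gen A B else Gen (J A A) (J B B)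

lemma part_iff {V : Type} [Finite V] (X Y : SimpleGraph V) {n : ℕ} (G : SimpleGraph (Fin n))
    (U : Set (Fin n)) :
    (∃ (r : ℕ) (K : SimpleGraph (Fin r)), Gen X Y r K ∧ Nonempty (G.induce U ≃g K)) ↔
      Emb (G.induce U) X ∨ Emb (G.induce U) Y := by
  rw [ext_iff_iso (gen_closed X Y), ext_gen]

lemma emb_of_eq {V : Type} {X : SimpleGraph V} {n : ℕ} {G : SimpleGraph (Fin n)}
    {U U' : Set (Fin n)} (h : Emb (G.induce U) X) (hU : U' = U) : Emb (G.induce U') X := by
  subst hU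
  exact h

lemma products {n : ℕ} (G : SimpleGraph (Fin n)) :
    (∃ c : Fin n → Fin 3, ∀ i : Fin 3, ∃ (r : ℕ) (K : SimpleGraph (Fin r)),
        Ps i r K ∧ Nonempty (G.induce {v | c v = i} ≃g K)) ↔
    (∃ c : Fin n → Fin 2, ∀ j : Fin 2, ∃ (r : ℕ) (K : SimpleGraph (Fin r)),
        Qs j r K ∧ Nonempty (G.induce {v | c v = j} ≃g K)) := by
  classical
  have hP : ∀ c : Fin n → Fin 3, (∀ i : Fin 3, ∃ (r : ℕ) (K : SimpleGraph (Fin r)),
      Ps i r K ∧ Nonempty (G.induce {v | c v = i} ≃g K)) ↔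
      ∀ i : Fin 3, Emb (G.induce {v | c v = i}) A ∨ Emb (G.induce {v | c v = i}) B := by
    intro c
    exact forall_congr' fun i => part_iff A B G _
  have hQ : ∀ c : Fin n → Fin 2, (∀ j : Fin 2, ∃ (r : ℕ) (K : SimpleGraph (Fin r)),
      Qs j r K ∧ Nonempty (G.induce {v | c v = j} ≃g K)) ↔
      (Emb (G.induce {v | c v = 0}) A ∨ Emb (G.induce {v | c v = 0}) B) ∧
      (Emb (G.induce {v | c v = 1}) (J A A) ∨ Emb (G.induce {v | c v = 1}) (J B B)) := by
    intro c
    rw [Fin.forall_fin_two, ← part_iff A B G, ← part_iff (J A A) (J B B) G]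
    rfl
  simp only [hP, hQ]
  constructor
  · rintro ⟨c, h⟩
    -- two of the three parts are subgraphs of the same graph
    have h2 : ∃ i j k : Fin 3, i ≠ j ∧ i ≠ k ∧ j ≠ k ∧
        ((Emb (G.induce {v | c v = i}) A ∧ Emb (G.induce {v | c v = j}) A) ∨
          (Emb (G.induce {v | c v = i}) B ∧ Emb (G.induce {v | c v = j}) B)) := by
      rcases h 0 with h0 | h0 <;> rcases h 1 with h1 | h1 <;> rcases h 2 with h2 | h2
      · exact ⟨0, 1, 2, by decide, by decide, by decide, Or.inl ⟨h0, h1⟩⟩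
      · exact ⟨0, 1, 2, by decide, by decide, by decide, Or.inl ⟨h0, h1⟩⟩
      · exact ⟨0, 2, 1, by decide, by decide, by decide, Or.inl ⟨h0, h2⟩⟩
      · exact ⟨1, 2, 0, by decide, by decide, by decide, Or.inr ⟨h1, h2⟩⟩
      · exact ⟨1, 2, 0, by decide, by decide, by decide, Or.inl ⟨h1, h2⟩⟩
      · exact ⟨0, 2, 1, by decide, by decide, by decide, Or.inr ⟨h0, h2⟩⟩
      · exact ⟨0, 1, 2, by decide, by decide, by decide, Or.inr ⟨h0, h1⟩⟩
      · exact ⟨0, 1, 2, by decide, by decide, by decide, Or.inr ⟨h0, h1⟩⟩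
    obtain ⟨i, j, k, hij, hik, hjk, h3⟩ := h2
    have cov : ∀ x : Fin 3, x ≠ k → x = i ∨ x = j := by
      have g : ∀ i j k x : Fin 3, i ≠ j → i ≠ k → j ≠ k → x ≠ k → x = i ∨ x = j := by decide
      exact fun x hx => g i j k x hij hik hjk hx
    refine ⟨fun v => if c v = k then 0 else 1, ?_, ?_⟩
    · have e : {v | (if c v = k then (0 : Fin 2) else 1) = 0} = {v | c v = k} := by
        ext v
        simp only [Set.mem_ofPred_eq]
        by_cases hv : c v = k <;> simp [hv]
      exact (h k).imp (fun h => emb_of_eq h e) (fun h => emb_of_eq h e)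
    · have e : ∀ v ∈ {v | (if c v = k then (0 : Fin 2) else 1) = 1},
          v ∈ {v | c v = i} ∨ v ∈ {v | c v = j} := by
        intro v hv
        simp only [Set.mem_ofPred_eq] at hv ⊢
        apply cov
        intro hk
        simp [hk] at hv
      rcases h3 with ⟨ha, hb⟩ | ⟨ha, hb⟩
      · exact Or.inl (emb_union ha hb e)
      · exact Or.inr (emb_union ha hb e)
  · rintro ⟨c, h0, h1⟩
    have h2 : ∃ X : SimpleGraph (Fin 4), (X = A ∨ X = B) ∧
        Emb (G.induce {v | c v = 1}) (J X X) := by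
      rcases h1 with h1 | h1
      · exact ⟨A, Or.inl rfl, h1⟩
      · exact ⟨B, Or.inr rfl, h1⟩
    obtain ⟨X, hX, h2⟩ := h2
    obtain ⟨S, hS1, hS2⟩ := emb_split h2
    have hXe : ∀ {U : Set (Fin n)}, Emb (G.induce U) X →
        Emb (G.induce U) A ∨ Emb (G.induce U) B := by
      intro U hU
      rcases hX with rfl | rfl
      · exact Or.inl hU
      · exact Or.inr hU
    have c2 : ∀ x : Fin 2, x ≠ 0 → x = 1 := by decide
    refine ⟨fun v => if c v = 0 then 0 else if v ∈ S then 1 else 2, ?_⟩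
    intro i
    fin_cases i
    · have e : {v | (if c v = 0 then (0 : Fin 3) else if v ∈ S then 1 else 2) = 0} =
          {v | c v = 0} := by
        ext v
        simp only [Set.mem_ofPred_eq]
        by_cases hv : c v = 0 <;> by_cases hs : v ∈ S <;> simp [hv, hs]
      exact h0.imp (fun h => emb_of_eq h e) (fun h => emb_of_eq h e)
    · have e : {v | (if c v = 0 then (0 : Fin 3) else if v ∈ S then 1 else 2) = 1} =
          {v | v ∈ {v | c v = 1} ∧ v ∈ S} := by
        ext v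
        simp only [Set.mem_ofPred_eq]
        by_cases hv : c v = 0 <;> by_cases hs : v ∈ S
        · simp [hv, hs]
        · simp [hv, hs]
        · simp [hv, hs, c2 _ hv]
        · simp [hv, hs]
      exact hXe (emb_of_eq hS1 e)
    · have e : {v | (if c v = 0 then (0 : Fin 3) else if v ∈ S then 1 else 2) = 2} =
          {v | v ∈ {v | c v = 1} ∧ v ∉ S} := by
        ext v
        simp only [Set.mem_ofPred_eq]
        by_cases hv : c v = 0 <;> by_cases hs : v ∈ S
        · simp [hv, hs]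
        · simp [hv, hs]
        · simp [hv, hs]
        · simp [hv, hs, c2 _ hv]
      exact hXe (emb_of_eq hS2 e)

/-- The negation of the preceding statement: Among subgraph-closed classes of finite graphs, with product = vertex partition into parts in the factors, any two factorizations of a class into irreducible factors (contain K1, not a product of two such classes) agree up to reordering. -/
theorem result :
    ¬ (∀ (m k : ℕ) (Ps : Fin m → (n : ℕ) → SimpleGraph (Fin n) → Prop)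
      (Qs : Fin k → (n : ℕ) → SimpleGraph (Fin n) → Prop),
      (∀ i : Fin m,
        (∀ (a b : ℕ) (G : SimpleGraph (Fin a)) (H : SimpleGraph (Fin b)) (f : H →g G),
          Function.Injective f → Ps i a G → Ps i b H) ∧
        Ps i 1 ⊥ ∧
        ∀ A B : (n : ℕ) → SimpleGraph (Fin n) → Prop,
          (∀ (a b : ℕ) (G : SimpleGraph (Fin a)) (H : SimpleGraph (Fin b)) (f : H →g G),
            Function.Injective f → A a G → A b H) →
          (∀ (a b : ℕ) (G : SimpleGraph (Fin a)) (H : SimpleGraph (Fin b)) (f : H →g G),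
            Function.Injective f → B a G → B b H) →
          A 1 ⊥ → B 1 ⊥ →
          ¬ ∀ (n : ℕ) (G : SimpleGraph (Fin n)),
            (Ps i n G ↔ ∃ S : Set (Fin n),
              (∃ (r : ℕ) (K : SimpleGraph (Fin r)), A r K ∧ Nonempty (G.induce S ≃g K)) ∧
              (∃ (r : ℕ) (K : SimpleGraph (Fin r)), B r K ∧ Nonempty (G.induce Sᶜ ≃g K)))) →
      (∀ j : Fin k,
        (∀ (a b : ℕ) (G : SimpleGraph (Fin a)) (H : SimpleGraph (Fin b)) (f : H →g G),
          Function.Injective f → Qs j a G → Qs j b H) ∧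
        Qs j 1 ⊥ ∧
        ∀ A B : (n : ℕ) → SimpleGraph (Fin n) → Prop,
          (∀ (a b : ℕ) (G : SimpleGraph (Fin a)) (H : SimpleGraph (Fin b)) (f : H →g G),
            Function.Injective f → A a G → A b H) →
          (∀ (a b : ℕ) (G : SimpleGraph (Fin a)) (H : SimpleGraph (Fin b)) (f : H →g G),
            Function.Injective f → B a G → B b H) →
          A 1 ⊥ → B 1 ⊥ →
          ¬ ∀ (n : ℕ) (G : SimpleGraph (Fin n)),
            (Qs j n G ↔ ∃ S : Set (Fin n),
              (∃ (r : ℕ) (K : SimpleGraph (Fin r)), A r K ∧ Nonempty (G.induce S ≃g K)) ∧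
              (∃ (r : ℕ) (K : SimpleGraph (Fin r)), B r K ∧ Nonempty (G.induce Sᶜ ≃g K)))) →
      (∀ (n : ℕ) (G : SimpleGraph (Fin n)),
        (∃ c : Fin n → Fin m, ∀ i : Fin m, ∃ (r : ℕ) (K : SimpleGraph (Fin r)),
            Ps i r K ∧ Nonempty (G.induce {v | c v = i} ≃g K)) ↔
        (∃ c : Fin n → Fin k, ∀ j : Fin k, ∃ (r : ℕ) (K : SimpleGraph (Fin r)),
            Qs j r K ∧ Nonempty (G.induce {v | c v = j} ≃g K))) →
      ∃ σ : Fin m ≃ Fin k, ∀ (i : Fin m) (n : ℕ) (G : SimpleGraph (Fin n)),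
        (Ps i n G ↔ Qs (σ i) n G)) := by
  intro h
  obtain ⟨σ, -⟩ := h 3 2 Ps Qs
    (fun i => ⟨gen_closed A B, P_one A B, fun A' B' h1 h2 h3 h4 => irredP A' B' h1 h2 h3 h4⟩)
    (fun j => by
      by_cases hj : j = 0
      · subst hj
        exact ⟨gen_closed A B, P_one A B, fun A' B' h1 h2 h3 h4 => irredP A' B' h1 h2 h3 h4⟩
      · have e : Qs j = Gen (J A A) (J B B) := by
          unfold Qs
          rw [if_neg hj]
        rw [e]
        exact ⟨gen_closed _ _, P_one _ _, fun A' B' h1 h2 h3 h4 => irredQ A' B' h1 h2 h3 h4⟩)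
    (fun n G => products G)
  have := Fintype.card_congr σ
  simp at this

end Pool.Agent.S11608
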