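import Pool.Statements.S13150
import Pool.Agent.V8H81.Erd.Homeo

/-!
# Homeomorphism groups of Menger manifolds and complete Erdős space

Let `μ` be the one-dimensional Menger compactum. If the homeomorphism group of `μ` and the one of
the disjoint union `ℕ × μ` of countably many copies of `μ` (a Menger manifold, too) were both
homeomorphic to complete Erdős space `E`, then `E ^ ℕ` would be homeomorphic to a closed subset of
`E`. This is impossible: a closed copy of `E ^ ℕ` in `E` contains closed copies of `E ^ ℕ` which are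
bounded, a nonempty bounded closed subset of `E` is zero-dimensional at some point, but `E ^ ℕ` is not
zero-dimensional at any point, because the nonempty clopen subsets of `E` are unbounded.
-/

set_option autoImplicit false
open Pool Pool.MP_4f0e62_gt

namespace Pool.Agent.S13150

open Pool.Agent.V8H81.Erd Topology

theorem not_both {X : Type} [TopologicalSpace X] [T2Space X]
    (h1 : Nonempty (@Homeomorph (X ≃ₜ X) E (co X) inferInstance))
    (h2 : Nonempty (@Homeomorph ((ℕ × X) ≃ₜ (ℕ × X)) E (co (ℕ × X)) inferInstance)) : False := by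
  let t1 : TopologicalSpace (X ≃ₜ X) := co X
  let t2 : TopologicalSpace ((ℕ × X) ≃ₜ (ℕ × X)) := co (ℕ × X)
  obtain ⟨h1⟩ := h1
  obtain ⟨h2⟩ := h2
  have e1 : IsClosedEmbedding (fun (g : ℕ → E) (k : ℕ) => h1.symm (g k)) :=
    (Homeomorph.piCongrRight fun _ : ℕ => h1.symm).isClosedEmbedding
  exact no_closed_embedding (h2.isClosedEmbedding.comp (Θ_closedEmbedding.comp e1))

/-- The negation of the preceding statement: For every n ≥ 1 and every nonempty separable metrizable space locally homeomorphic to open subsets of the n-dimensional Menger compactum, its homeomorphism group with the compact-open topology is homeomorphic to complete Erdős space. -/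
theorem result :
    ¬ (∀ (n : ℕ), 1 ≤ n →
    ∀ (M : Type) [TopologicalSpace M] [TopologicalSpace.MetrizableSpace M]
      [TopologicalSpace.SeparableSpace M] [Nonempty M],
      (∀ x : M, ∃ V : Set M, IsOpen V ∧ x ∈ V ∧
        ∃ U : Set {y : Fin (2 * n + 1) → ℝ |
            ∀ k : ℕ, ∃ a : Fin (2 * n + 1) → ℕ,
              (∀ i, a i < 3 ^ k ∧ (a i : ℝ) / 3 ^ k ≤ y i ∧ y i ≤ ((a i : ℝ) + 1) / 3 ^ k) ∧
              ∀ j < k, (Finset.univ.filter (fun i => a i / 3 ^ j % 3 = 1)).card ≤ n},
          IsOpen U ∧ Nonempty (V ≃ₜ U)) →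
      Nonempty (@Homeomorph (M ≃ₜ M)
        {x : lp (fun _ : ℕ => ℝ) 2 | ∀ i : ℕ, (x : ℕ → ℝ) i = 0 ∨
            ∃ k : ℕ, 0 < k ∧ (x : ℕ → ℝ) i = 1 / (k : ℝ)}
        (TopologicalSpace.induced (fun g : M ≃ₜ M => ContinuousMap.mk (⇑g) g.continuous)
          inferInstance)
        inferInstance)) := by
  intro H
  let μ : Set (Fin (2 * 1 + 1) → ℝ) := {y : Fin (2 * 1 + 1) → ℝ |
            ∀ k : ℕ, ∃ a : Fin (2 * 1 + 1) → ℕ,
              (∀ i, a i < 3 ^ k ∧ (a i : ℝ) / 3 ^ k ≤ y i ∧ y i ≤ ((a i : ℝ) + 1) / 3 ^ k) ∧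
              ∀ j < k, (Finset.univ.filter (fun i => a i / 3 ^ j % 3 = 1)).card ≤ 1}
  have hne : Nonempty μ := by
    refine ⟨⟨fun _ => 0, fun k => ⟨fun _ => 0, fun i => ⟨by positivity, ?_, ?_⟩, fun j _ => ?_⟩⟩⟩
    · simp
    · positivity
    · simp
  have h1 := H 1 le_rfl μ (fun x => ⟨Set.univ, isOpen_univ, Set.mem_univ x, Set.univ, isOpen_univ,
    ⟨Homeomorph.refl _⟩⟩)
  have h2 := H 1 le_rfl (ℕ × μ) (fun x => by
    refine ⟨Prod.fst ⁻¹' {x.1}, (isOpen_discrete _).preimage continuous_fst, rfl, Set.univ,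
      isOpen_univ, ⟨?_⟩⟩
    exact
      { toFun := fun p => ⟨p.1.2, Set.mem_univ _⟩
        invFun := fun q => ⟨(x.1, q.1), rfl⟩
        left_inv := by
          rintro ⟨⟨k, y⟩, hk⟩
          have hk' : k = x.1 := hk
          subst hk'
          rfl
        right_inv := by
          rintro ⟨y, hy⟩
          rfl
        continuous_toFun := by fun_prop
        continuous_invFun := by fun_prop })
  exact not_both h1 h2

end Pool.Agent.S13150
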