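-- The closed topologist's sine curve is a counterexample: every subcontinuum of it is a point, an arc
-- or a copy of the whole curve, and in each case the set of local separating points is connected.
import Pool.Statements.S13772

set_option autoImplicit false
open Pool Pool.MP_b1ea19_gt

namespace Pool.Agent.S13772

open Set Filter Topology

/-- `x sin (1/x)` -/
noncomputable def g (x : ℝ) : ℝ := x * Real.sin (1 / x)

lemma g_cont : Continuous g := by
  rw [continuous_iff_continuousAt]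
  intro x
  by_cases hx : x = 0
  · subst hx
    have h0 : g 0 = 0 := by simp [g]
    rw [ContinuousAt, h0]
    apply squeeze_zero_norm (a := fun x => |x|)
    · intro t
      rw [g, Real.norm_eq_abs, abs_mul]
      exact mul_le_of_le_one_right (abs_nonneg _) (Real.abs_sin_le_one _)
    · exact continuous_abs.tendsto' 0 0 (by simp)
  · unfold g
    exact continuousAt_id.mul (Real.continuous_sin.continuousAt.comp
      (continuousAt_const.div continuousAt_id hx))

/-- The closed topologist's sine curve. -/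
def T : Set (ℝ × ℝ) :=
  {p | (0 ≤ p.1 ∧ p.1 ≤ 1) ∧ (-1 ≤ p.2 ∧ p.2 ≤ 1) ∧ p.1 * p.2 = g p.1}

lemma T_closed : IsClosed T := by
  have hg := g_cont
  unfold T
  refine IsClosed.inter ?_ (IsClosed.inter ?_ ?_)
  · exact IsClosed.inter (isClosed_le continuous_const continuous_fst)
      (isClosed_le continuous_fst continuous_const)
  · exact IsClosed.inter (isClosed_le continuous_const continuous_snd)
      (isClosed_le continuous_snd continuous_const)
  · exact isClosed_eq (continuous_fst.mul continuous_snd) (hg.comp continuous_fst)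

lemma T_compact : IsCompact T := by
  apply IsCompact.of_isClosed_subset (isCompact_Icc (a := ((0 : ℝ), (-1 : ℝ))) (b := ((1 : ℝ), (1 : ℝ))))
    T_closed
  rintro ⟨x, y⟩ ⟨⟨h1, h2⟩, ⟨h3, h4⟩, -⟩
  exact ⟨⟨h1, h3⟩, ⟨h2, h4⟩⟩

abbrev X : Type := T

instance : CompactSpace X := isCompact_iff_compactSpace.1 T_compact

lemma snd_eq (p : X) (hp : 0 < p.1.1) : p.1.2 = Real.sin (1 / p.1.1) := by
  have h := p.2.2.2
  unfold g at h
  exact mul_left_cancel₀ hp.ne' h

lemma gr_mem {x : ℝ} (h0 : 0 < x) (h1 : x ≤ 1) : (x, Real.sin (1 / x)) ∈ T :=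
  ⟨⟨h0.le, h1⟩, ⟨Real.neg_one_le_sin _, Real.sin_le_one _⟩, rfl⟩

lemma bar_mem {y : ℝ} (h0 : -1 ≤ y) (h1 : y ≤ 1) : ((0 : ℝ), y) ∈ T :=
  ⟨⟨le_refl _, zero_le_one⟩, ⟨h0, h1⟩, by simp [g]⟩

open Classical in
/-- the graph part -/
noncomputable def gr (x : ℝ) : X :=
  if h : 0 < x ∧ x ≤ 1 then ⟨(x, Real.sin (1 / x)), gr_mem h.1 h.2⟩
    else ⟨(0, 0), bar_mem (by norm_num) (by norm_num)⟩

open Classical in
/-- the limit bar -/
noncomputable def bar (y : ℝ) : X :=
  if h : -1 ≤ y ∧ y ≤ 1 then ⟨(0, y), bar_mem h.1 h.2⟩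
    else ⟨(0, 0), bar_mem (by norm_num) (by norm_num)⟩

lemma gr_val {x : ℝ} (h : x ∈ Ioc (0 : ℝ) 1) : (gr x).1 = (x, Real.sin (1 / x)) := by
  unfold gr; rw [dif_pos ⟨h.1, h.2⟩]

lemma bar_val {y : ℝ} (h : y ∈ Icc (-1 : ℝ) 1) : (bar y).1 = (0, y) := by
  unfold bar; rw [dif_pos ⟨h.1, h.2⟩]

lemma gr_cont : ContinuousOn gr (Ioc (0 : ℝ) 1) := by
  rw [Topology.IsInducing.subtypeVal.continuousOn_iff]
  have h : ContinuousOn (fun x : ℝ => (x, Real.sin (1 / x))) (Ioc (0 : ℝ) 1) := by
    refine continuousOn_id.prodMk (Real.continuous_sin.comp_continuousOn ?_)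
    exact continuousOn_const.div continuousOn_id (fun x hx => hx.1.ne')
  exact h.congr fun x hx => gr_val hx

lemma bar_cont : ContinuousOn bar (Icc (-1 : ℝ) 1) := by
  rw [Topology.IsInducing.subtypeVal.continuousOn_iff]
  have h : ContinuousOn (fun x : ℝ => ((0 : ℝ), x)) (Icc (-1 : ℝ) 1) := by fun_prop
  exact h.congr fun x hx => bar_val hx

lemma eq_gr (p : X) (hp : 0 < p.1.1) : gr p.1.1 = p := by
  apply Subtype.ext
  rw [gr_val ⟨hp, p.2.1.2⟩]
  exact Prod.ext rfl (snd_eq p hp).symm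

lemma eq_bar (p : X) (hp : p.1.1 = 0) : bar p.1.2 = p := by
  apply Subtype.ext
  rw [bar_val ⟨p.2.2.1.1, p.2.2.1.2⟩]
  exact Prod.ext hp.symm rfl

/-- The points of the bar are limits of graph points. -/
lemma bar_closure (p : X) (hp : p.1.1 = 0) (a : ℝ) (ha : 0 < a) (ha1 : a ≤ 1) :
    p ∈ closure (gr '' Ioo 0 a) := by
  have hy := p.2.2.1
  set y := p.1.2 with hydef
  -- the parameters
  let s : ℕ → ℝ := fun n => Real.arcsin y + (n + 1 : ℕ) * (2 * Real.pi)
  have hpi := Real.pi_pos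
  have hs_pos : ∀ n, 0 < s n := by
    intro n
    have h1 := Real.neg_pi_div_two_le_arcsin y
    have h2 : (1 : ℝ) ≤ ((n + 1 : ℕ) : ℝ) := by
      have : (1 : ℕ) ≤ n + 1 := Nat.le_add_left 1 n
      exact_mod_cast this
    simp only [s]
    nlinarith
  have hs_top : Tendsto s atTop atTop := by
    apply tendsto_atTop_add_const_left
    apply Tendsto.atTop_mul_const (by positivity)
    exact (tendsto_natCast_atTop_atTop (R := ℝ)).comp (tendsto_add_atTop_nat 1)
  have hx0 : Tendsto (fun n => 1 / s n) atTop (𝓝 0) := by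
    have h := hs_top.inv_tendsto_atTop
    refine h.congr fun n => ?_
    rw [Pi.inv_apply, one_div]
  have hsin : ∀ n, Real.sin (1 / (1 / s n)) = y := by
    intro n
    rw [one_div_one_div]
    simp only [s]
    rw [Real.sin_add_nat_mul_two_pi]
    exact Real.sin_arcsin hy.1 hy.2
  have hev : ∀ᶠ n in atTop, 1 / s n < a := hx0.eventually (gt_mem_nhds ha)
  have hT : Tendsto (fun n => gr (1 / s n)) atTop (𝓝 p) := by
    rw [Topology.IsInducing.subtypeVal.tendsto_nhds_iff]
    have h2 : Tendsto (fun n => ((1 / s n), y)) atTop (𝓝 p.1) := by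
      have : p.1 = (0, y) := Prod.ext hp rfl
      rw [this]
      exact hx0.prodMk_nhds tendsto_const_nhds
    refine h2.congr' ?_
    filter_upwards [hev] with n hn
    have hpos : 0 < 1 / s n := by have := hs_pos n; positivity
    show _ = (gr (1 / s n)).1
    rw [gr_val ⟨hpos, by linarith⟩, hsin n]
  refine mem_closure_of_tendsto hT ?_
  filter_upwards [hev] with n hn
  have hpos : 0 < 1 / s n := by have := hs_pos n; positivity
  exact ⟨1 / s n, ⟨hpos, hn⟩, rfl⟩

/-- The set of local separating points of a connected set `C` containing a dense relatively open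
arc is connected. -/
lemma abs_lemma {Y : Type} [TopologicalSpace Y] (C V : Set Y) (hV : IsOpen V) (φ : Y → ℝ)
    (hφ : Continuous φ) (ψ : ℝ → Y) (I : Set ℝ) (hI : IsPreconnected I) (hnt : I.Nontrivial)
    (hψ : ContinuousOn ψ I) (hinv : ∀ t ∈ I, φ (ψ t) = t) (hVC : V ∩ C = ψ '' I)
    (hcl : C ⊆ closure (ψ '' I)) :
    IsPreconnected {p : Y | p ∈ C ∧ ∃ V : Set Y, IsOpen V ∧ p ∈ V ∧
          ¬ IsPreconnected (connectedComponentIn (V ∩ C) p \ {p})} := by
  have hord : I.OrdConnected := isPreconnected_iff_ordConnected.1 hI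
  obtain ⟨u, hu, v, hv, huv⟩ := hnt.exists_lt
  -- the points strictly inside
  let J : Set ℝ := {x | (∃ a ∈ I, a < x) ∧ ∃ b ∈ I, x < b}
  have hJI : J ⊆ I := by
    rintro x ⟨⟨a, ha, hax⟩, b, hb, hxb⟩
    exact hord.out ha hb ⟨hax.le, hxb.le⟩
  have hJ : IsPreconnected J := by
    apply Set.OrdConnected.isPreconnected
    refine ⟨fun x hx y hy z hz => ?_⟩
    obtain ⟨⟨a, ha, hax⟩, -⟩ := hx
    obtain ⟨-, b, hb, hyb⟩ := hy
    exact ⟨⟨a, ha, hax.trans_le hz.1⟩, b, hb, hz.2.trans_lt hyb⟩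
  have hIJ : I ⊆ closure J := by
    intro x hx
    have hsub : ∀ a b : ℝ, a ∈ I → b ∈ I → a < b → Icc a b ⊆ closure J := by
      intro a b ha hb hab
      rw [← closure_Ioo hab.ne]
      apply closure_mono
      intro z hz
      exact ⟨⟨a, ha, hz.1⟩, b, hb, hz.2⟩
    rcases lt_trichotomy x u with h | h | h
    · exact hsub x u hx hu h ⟨le_refl _, h.le⟩
    · subst h
      exact hsub x v hx hv huv ⟨le_refl _, huv.le⟩
    · exact hsub u x hu hx h ⟨h.le, le_refl _⟩
  have hG : IsPreconnected (ψ '' J) := hJ.image ψ (hψ.mono hJI)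
  refine hG.subset_closure ?_ ?_
  · -- interior points are local separating points
    rintro _ ⟨x, hx, rfl⟩
    have hxI := hJI hx
    obtain ⟨⟨a, ha, hax⟩, b, hb, hxb⟩ := hx
    have hmem : ψ x ∈ V ∩ C := by rw [hVC]; exact ⟨x, hxI, rfl⟩
    refine ⟨hmem.2, V, hV, hmem.1, fun hcon => ?_⟩
    have hpre : IsPreconnected (V ∩ C) := by rw [hVC]; exact hI.image ψ hψ
    rw [hpre.connectedComponentIn hmem] at hcon
    have himg : IsPreconnected (φ '' ((V ∩ C) \ {ψ x})) := hcon.image φ hφ.continuousOn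
    have hord2 := isPreconnected_iff_ordConnected.1 himg
    have hane : ψ a ≠ ψ x := fun h => by
      have := congrArg φ h
      rw [hinv a ha, hinv x hxI] at this
      exact hax.ne this
    have hbne : ψ b ≠ ψ x := fun h => by
      have := congrArg φ h
      rw [hinv b hb, hinv x hxI] at this
      exact hxb.ne' this
    have ha' : a ∈ φ '' ((V ∩ C) \ {ψ x}) :=
      ⟨ψ a, ⟨by rw [hVC]; exact ⟨a, ha, rfl⟩, hane⟩, hinv a ha⟩
    have hb' : b ∈ φ '' ((V ∩ C) \ {ψ x}) :=
      ⟨ψ b, ⟨by rw [hVC]; exact ⟨b, hb, rfl⟩, hbne⟩, hinv b hb⟩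
    obtain ⟨q, ⟨hq1, hq2⟩, hq3⟩ := hord2.out ha' hb' ⟨hax.le, hxb.le⟩
    rw [hVC] at hq1
    obtain ⟨t, ht, rfl⟩ := hq1
    rw [hinv t ht] at hq3
    subst hq3
    exact hq2 rfl
  · rintro p ⟨hp, -⟩
    have h1 : ψ '' I ⊆ closure (ψ '' J) := by
      rintro _ ⟨x, hx, rfl⟩
      have hc : ContinuousWithinAt ψ J x := (hψ x hx).mono hJI
      exact hc.mem_closure_image (hIJ hx)
    exact closure_minimal h1 isClosed_closure (hcl hp)

lemma hyp (C : Set X) (hC : IsConnected C) :
    IsPreconnected {p : X | p ∈ C ∧ ∃ V : Set X, IsOpen V ∧ p ∈ V ∧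
          ¬ IsPreconnected (connectedComponentIn (V ∩ C) p \ {p})} := by
  have hfst : Continuous (fun p : X => p.1.1) := continuous_fst.comp continuous_subtype_val
  have hsnd : Continuous (fun p : X => p.1.2) := continuous_snd.comp continuous_subtype_val
  by_cases hsub : C.Subsingleton
  · exact Set.Subsingleton.isPreconnected (hsub.anti fun p hp => hp.1)
  rw [Set.not_subsingleton_iff] at hsub
  by_cases hpos : ∃ q ∈ C, 0 < q.1.1
  · -- C contains graph points
    obtain ⟨q, hq, hq0⟩ := hpos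
    obtain ⟨q', hq', hne⟩ := hsub.exists_ne q
    have hne1 : q'.1.1 ≠ q.1.1 := by
      intro h
      apply hne
      rw [← eq_gr q hq0, ← eq_gr q' (by rw [h]; exact hq0), h]
    have hI0 : IsPreconnected ((fun p : X => p.1.1) '' C) :=
      hC.isPreconnected.image _ hfst.continuousOn
    have hord0 := isPreconnected_iff_ordConnected.1 hI0
    let I : Set ℝ := (fun p : X => p.1.1) '' C ∩ Ioi 0
    have hordI : I.OrdConnected := hord0.inter ordConnected_Ioi
    have hIsub : I ⊆ Ioc 0 1 := by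
      rintro x ⟨⟨p, hp, rfl⟩, h2⟩
      exact ⟨h2, p.2.1.2⟩
    have hgr : ∀ x ∈ I, gr x ∈ C := by
      rintro x ⟨⟨p, hp, rfl⟩, h2⟩
      rw [eq_gr p h2]; exact hp
    have hqI : q.1.1 ∈ I := ⟨⟨q, hq, rfl⟩, hq0⟩
    have hq'0 : 0 ≤ q'.1.1 := q'.2.1.1
    have hntI : I.Nontrivial := by
      rcases lt_or_gt_of_ne hne1 with h | h
      · refine ⟨(q'.1.1 + q.1.1) / 2, ⟨?_, ?_⟩, q.1.1, hqI, by linarith⟩
        · exact hord0.out ⟨q', hq', rfl⟩ ⟨q, hq, rfl⟩ ⟨by linarith, by linarith⟩
        · show (0 : ℝ) < _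
          linarith
      · exact ⟨q'.1.1, ⟨⟨q', hq', rfl⟩, lt_trans hq0 h⟩, q.1.1, hqI, hne1⟩
    refine abs_lemma C {p : X | 0 < p.1.1} (isOpen_lt continuous_const hfst) (fun p : X => p.1.1) hfst
      gr I hordI.isPreconnected hntI (gr_cont.mono hIsub)
      (fun t ht => by simp only [gr_val (hIsub ht)]) ?_ ?_
    · ext p
      constructor
      · rintro ⟨h1, h2⟩
        exact ⟨p.1.1, ⟨⟨p, h2, rfl⟩, h1⟩, eq_gr p h1⟩
      · rintro ⟨x, hx, rfl⟩
        refine ⟨?_, hgr x hx⟩
        show 0 < (gr x).1.1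
        rw [gr_val (hIsub hx)]; exact hx.2
    · intro c hc
      rcases (c.2.1.1 : (0 : ℝ) ≤ c.1.1).lt_or_eq with h | h
      · apply subset_closure
        exact ⟨c.1.1, ⟨⟨c, hc, rfl⟩, h⟩, eq_gr c h⟩
      · have hcl := bar_closure c h.symm q.1.1 hq0 q.2.1.2
        refine closure_mono ?_ hcl
        apply image_mono
        intro x hx
        refine ⟨?_, hx.1⟩
        exact hord0.out ⟨c, hc, rfl⟩ ⟨q, hq, rfl⟩ ⟨by simp only [← h]; exact hx.1.le, hx.2.le⟩
  · -- C lies in the bar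
    push Not at hpos
    have h0 : ∀ p ∈ C, p.1.1 = 0 := fun p hp => le_antisymm (hpos p hp) p.2.1.1
    have hI0 : IsPreconnected ((fun p : X => p.1.2) '' C) :=
      hC.isPreconnected.image _ hsnd.continuousOn
    have hIsub : (fun p : X => p.1.2) '' C ⊆ Icc (-1) 1 := by
      rintro _ ⟨p, hp, rfl⟩
      exact ⟨p.2.2.1.1, p.2.2.1.2⟩
    have himg : bar '' ((fun p : X => p.1.2) '' C) = C := by
      ext p
      constructor
      · rintro ⟨_, ⟨q, hq, rfl⟩, rfl⟩
        simp only
        rw [eq_bar q (h0 q hq)]; exact hq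
      · intro hp
        exact ⟨p.1.2, ⟨p, hp, rfl⟩, eq_bar p (h0 p hp)⟩
    have hnt : ((fun p : X => p.1.2) '' C).Nontrivial := by
      obtain ⟨p, hp, q, hq, hpq⟩ := hsub
      refine ⟨p.1.2, ⟨p, hp, rfl⟩, q.1.2, ⟨q, hq, rfl⟩, fun h => hpq ?_⟩
      rw [← eq_bar p (h0 p hp), ← eq_bar q (h0 q hq), h]
    refine abs_lemma C univ isOpen_univ (fun p : X => p.1.2) hsnd bar _ hI0 hnt
      (bar_cont.mono hIsub) (fun t ht => by simp only [bar_val (hIsub ht)]) ?_ ?_
    · rw [univ_inter, himg]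
    · rw [himg]; exact subset_closure

lemma X_conn : IsConnected (univ : Set X) := by
  have hG : IsConnected (gr '' Ioc (0 : ℝ) 1) :=
    (isConnected_Ioc zero_lt_one).image gr gr_cont
  refine hG.subset_closure (subset_univ _) ?_
  intro p _
  rcases (p.2.1.1 : (0 : ℝ) ≤ p.1.1).lt_or_eq with h | h
  · apply subset_closure
    exact ⟨p.1.1, ⟨h, p.2.1.2⟩, eq_gr p h⟩
  · refine closure_mono ?_ (bar_closure p h.symm 1 zero_lt_one le_rfl)
    exact image_mono Ioo_subset_Ioc_self

instance : ConnectedSpace X := by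
  rw [connectedSpace_iff_univ]
  exact X_conn

/-- There is no path from the bar to the graph. -/
lemma no_path (F : ℝ → X) (hF : Continuous F) (h0 : (F 0).1.1 = 0) (h1 : 0 < (F 1).1.1) :
    False := by
  have hfst : Continuous (fun t : ℝ => (F t).1.1) :=
    (continuous_fst.comp continuous_subtype_val).comp hF
  have hsnd : Continuous (fun t : ℝ => (F t).1.2) :=
    (continuous_snd.comp continuous_subtype_val).comp hF
  let S : Set ℝ := Icc 0 1 ∩ {t | (F t).1.1 = 0}
  have hSc : IsCompact S := isCompact_Icc.inter_right (isClosed_eq hfst continuous_const)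
  have hSne : S.Nonempty := ⟨0, ⟨le_rfl, zero_le_one⟩, h0⟩
  have ht0 : sSup S ∈ S := hSc.sSup_mem hSne
  set t0 := sSup S with ht0def
  have ht01 : t0 < 1 := by
    rcases ht0.1.2.lt_or_eq with h | h
    · exact h
    · exfalso
      have := ht0.2
      have this : (F t0).1.1 = 0 := this
      rw [h] at this
      linarith
  obtain ⟨δ, hδ, hcont⟩ := Metric.continuousAt_iff.1 (hsnd.continuousAt (x := t0)) (1 / 2)
    (by norm_num)
  set t1 := min (t0 + δ / 2) 1 with ht1def
  have ht1 : t0 < t1 := lt_min (by linarith) ht01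
  have ht1' : t1 ≤ t0 + δ / 2 := min_le_left _ _
  have ht1'' : t1 ≤ 1 := min_le_right _ _
  have hpos : 0 < (F t1).1.1 := by
    rcases ((F t1).2.1.1 : (0 : ℝ) ≤ (F t1).1.1).lt_or_eq with h | h
    · exact h
    · exfalso
      have hmem : t1 ∈ S := ⟨⟨le_trans ht0.1.1 ht1.le, ht1''⟩, h.symm⟩
      have := le_csSup hSc.bddAbove hmem
      rw [← ht0def] at this
      linarith
  have hivt := intermediate_value_Icc ht1.le hfst.continuousOn
  have hz : (F t0).1.1 = 0 := ht0.2
  rw [hz] at hivt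
  -- values of the sine near zero
  have key : ∀ c : ℝ, -1 ≤ c → c ≤ 1 → ∃ t, t ∈ Icc t0 t1 ∧ (F t).1.2 = c := by
    intro c hc1 hc2
    have hcl := bar_closure ⟨(0, c), bar_mem hc1 hc2⟩ rfl (F t1).1.1 hpos (F t1).2.1.2
    have hpi := Real.pi_pos
    -- choose a parameter directly
    obtain ⟨n, hn⟩ := exists_nat_gt (1 / (F t1).1.1)
    let s : ℝ := Real.arcsin c + (n + 1 : ℕ) * (2 * Real.pi)
    have hs1 : (n : ℝ) < s := by
      have h1 := Real.neg_pi_div_two_le_arcsin c
      have h2 : ((n + 1 : ℕ) : ℝ) = (n : ℝ) + 1 := by push_cast; ring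
      have h3 : (0 : ℝ) ≤ n := Nat.cast_nonneg n
      have h4 := Real.pi_gt_three
      simp only [s, h2]
      nlinarith
    have hs0 : 0 < s := lt_of_le_of_lt (Nat.cast_nonneg n) hs1
    have hlt : 1 / s < (F t1).1.1 := by
      rw [div_lt_iff₀ hs0]
      rw [div_lt_iff₀ hpos] at hn
      nlinarith
    obtain ⟨t, ht, htx⟩ := hivt (show 1 / s ∈ Icc 0 (F t1).1.1 from ⟨by positivity, hlt.le⟩)
    refine ⟨t, ht, ?_⟩
    have htx' : (F t).1.1 = 1 / s := htx
    have hp : 0 < (F t).1.1 := by rw [htx']; positivity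
    rw [snd_eq (F t) hp, htx', one_div_one_div]
    simp only [s]
    rw [Real.sin_add_nat_mul_two_pi]
    exact Real.sin_arcsin hc1 hc2
  obtain ⟨a, ha, ha1⟩ := key 1 (by norm_num) le_rfl
  obtain ⟨b, hb, hb1⟩ := key (-1) le_rfl (by norm_num)
  have hda : dist a t0 < δ := by
    rw [Real.dist_eq, abs_of_nonneg (by linarith [ha.1])]
    linarith [ha.2]
  have hdb : dist b t0 < δ := by
    rw [Real.dist_eq, abs_of_nonneg (by linarith [hb.1])]
    linarith [hb.2]
  have e1 := hcont hda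
  have e2 := hcont hdb
  simp only [ha1, hb1, Real.dist_eq] at e1 e2
  rw [abs_lt] at e1 e2
  linarith [e1.1, e1.2, e2.1, e2.2]

/-- The negation of the preceding statement: If X is a continuum in which every subcontinuum C has a connected set of local separating points, then any two distinct points of any connected subset of X are joined by an arc lying inside that subset. -/
theorem result :
    ¬ (∀ (X : Type) [MetricSpace X] [CompactSpace X] [ConnectedSpace X],
      (∀ C : Set X, IsCompact C → IsConnected C →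
        IsPreconnected {p : X | p ∈ C ∧ ∃ V : Set X, IsOpen V ∧ p ∈ V ∧
          ¬ IsPreconnected (connectedComponentIn (V ∩ C) p \ {p})}) →
      ∀ A : Set X, IsConnected A → ∀ x ∈ A, ∀ y ∈ A, x ≠ y →
        ∃ f : unitInterval → X, Continuous f ∧ Function.Injective f ∧
          f 0 = x ∧ f 1 = y ∧ Set.range f ⊆ A) := by
  intro H
  have hne : bar 0 ≠ gr 1 := by
    intro h
    have h2 := congrArg (fun p : X => p.1.1) h
    simp only [bar_val (show (0 : ℝ) ∈ Icc (-1 : ℝ) 1 by constructor <;> norm_num),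
      gr_val (show (1 : ℝ) ∈ Ioc (0 : ℝ) 1 by constructor <;> norm_num)] at h2
    exact zero_ne_one h2
  obtain ⟨f, hf, -, hf0, hf1, -⟩ := H X (fun C _ hC => hyp C hC) univ X_conn (bar 0) (mem_univ _)
    (gr 1) (mem_univ _) hne
  refine no_path (fun t => f (projIcc 0 1 zero_le_one t)) (hf.comp continuous_projIcc) ?_ ?_
  · have : projIcc (0 : ℝ) 1 zero_le_one 0 = 0 := projIcc_left _
    simp only [this, hf0]
    rw [bar_val (show (0 : ℝ) ∈ Icc (-1 : ℝ) 1 by constructor <;> norm_num)]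
  · have : projIcc (0 : ℝ) 1 zero_le_one 1 = 1 := projIcc_right _
    simp only [this, hf1]
    rw [gr_val (show (1 : ℝ) ∈ Ioc (0 : ℝ) 1 by constructor <;> norm_num)]
    exact zero_lt_one

end Pool.Agent.S13772
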