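import Pool.Statements.S15072
import Pool.Agent.V8H40.FS.Main

set_option autoImplicit false
open Pool Pool.MP_92bf3f_lc
open Pool.Agent.V8H40

namespace Pool.Agent.S15072

/-- The negation of the preceding statement: If C is an orbit of simple sets under automorphisms of the lattice of c.e. sets, then the class of sets that are one half of a Friedberg splitting of some member of C is also such an orbit. -/
theorem result :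
    ¬ (∀ C : Set (Set ℕ),
      (∀ A ∈ C, REPred (fun n : ℕ => n ∈ A) ∧ (Aᶜ).Infinite ∧
        ∀ W : Set ℕ, REPred (fun n : ℕ => n ∈ W) → W ⊆ Aᶜ → W.Finite) →
      C.Nonempty →
      (∀ Φ : {A : Set ℕ // REPred fun n : ℕ => n ∈ A} ≃o {A : Set ℕ // REPred fun n : ℕ => n ∈ A},
        ∀ x : {A : Set ℕ // REPred fun n : ℕ => n ∈ A}, x.val ∈ C → (Φ x).val ∈ C) →
      (∀ x y : {A : Set ℕ // REPred fun n : ℕ => n ∈ A}, x.val ∈ C → y.val ∈ C →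
        ∃ Φ : {A : Set ℕ // REPred fun n : ℕ => n ∈ A} ≃o {A : Set ℕ // REPred fun n : ℕ => n ∈ A},
          Φ x = y) →
      ∀ D : Set (Set ℕ),
        (∀ A : Set ℕ, A ∈ D ↔ ∃ B ∈ C, ∃ A1 : Set ℕ,
          REPred (fun n : ℕ => n ∈ A) ∧ REPred (fun n : ℕ => n ∈ A1) ∧
          Disjoint A A1 ∧ A ∪ A1 = B ∧
          ∀ W : Set ℕ, REPred (fun n : ℕ => n ∈ W) → ¬ REPred (fun n : ℕ => n ∈ W \ B) →
            (¬ REPred (fun n : ℕ => n ∈ W \ A) ∧ ¬ REPred (fun n : ℕ => n ∈ W \ A1))) →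
        D.Nonempty ∧
        (∀ Φ : {A : Set ℕ // REPred fun n : ℕ => n ∈ A} ≃o {A : Set ℕ // REPred fun n : ℕ => n ∈ A},
          ∀ x : {A : Set ℕ // REPred fun n : ℕ => n ∈ A}, x.val ∈ D → (Φ x).val ∈ D) ∧
        (∀ x y : {A : Set ℕ // REPred fun n : ℕ => n ∈ A}, x.val ∈ D → y.val ∈ D →
          ∃ Φ : {A : Set ℕ // REPred fun n : ℕ => n ∈ A} ≃o {A : Set ℕ // REPred fun n : ℕ => n ∈ A},
            Φ x = y)) := by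
  intro H
  obtain ⟨B, A, A1, G0, G1, hB, hA, hA1, hG0, hG1, hco, hsimple, hAd, hAB, hAf, hGd, hGB, hGf,
    hmain⟩ := Pool.Agent.V8H40.FS.main
  have hfr : ∀ X Y : Set ℕ, X ⊆ B →
      (∀ V : Set ℕ, FS.RE V → (V ∩ X = ∅ ∨ V ∩ Y = ∅) → (V \ B).Finite) →
      ∀ W : Set ℕ, REPred (fun n : ℕ => n ∈ W) → ¬ REPred (fun n : ℕ => n ∈ W \ B) →
        ¬ REPred (fun n : ℕ => n ∈ W \ X) := by
    intro X Y hXB hf W hW hWB hWX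
    have h1 : (W \ X) ∩ X = ∅ := by
      ext x
      constructor
      · rintro ⟨⟨-, h1⟩, h2⟩
        exact absurd h2 h1
      · intro h
        exact absurd h (Set.notMem_empty x)
    have h2 := hf _ hWX (Or.inl h1)
    refine hWB (FS.RE_finite (h2.subset ?_))
    rintro x ⟨h3, h4⟩
    exact ⟨⟨h3, fun h => h4 (hXB h)⟩, h4⟩
  have g1 : ∀ A ∈ {X | ∃ Φ : FS.E ≃o FS.E, X = (Φ ⟨B, hB⟩).1},
      REPred (fun n : ℕ => n ∈ A) ∧ (Aᶜ).Infinite ∧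
        ∀ W : Set ℕ, REPred (fun n : ℕ => n ∈ W) → W ⊆ Aᶜ → W.Finite := by
    rintro _ ⟨Φ, rfl⟩
    refine ⟨(Φ ⟨B, hB⟩).2, ?_, ?_⟩
    · intro hfin
      have h1 : ((⟨Set.univ, FS.RE_univ⟩ : FS.E).1 \ (Φ ⟨B, hB⟩).1).Finite :=
        hfin.subset fun x hx => hx.2
      have h2 := FS.aut_almost Φ.symm h1
      rw [OrderIso.symm_apply_apply, FS.aut_univ Φ.symm rfl] at h2
      exact hco (h2.subset fun x hx => ⟨trivial, hx⟩)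
    · intro W hW hWB
      have h1 : Disjoint (⟨W, hW⟩ : FS.E).1 (Φ ⟨B, hB⟩).1 := by
        rw [Set.disjoint_left]
        exact fun x hx => hWB hx
      have h2 := FS.aut_disjoint Φ.symm h1
      rw [OrderIso.symm_apply_apply] at h2
      have h3 := hsimple _ (Φ.symm ⟨W, hW⟩).2 (Set.disjoint_iff_inter_eq_empty.1 h2)
      have h4 := FS.aut_finite Φ h3
      rw [OrderIso.apply_symm_apply] at h4
      exact h4
  have g2 : {X | ∃ Φ : FS.E ≃o FS.E, X = (Φ ⟨B, hB⟩).1}.Nonempty := ⟨B, OrderIso.refl _, rfl⟩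
  have g3 : ∀ Φ : FS.E ≃o FS.E, ∀ x : FS.E,
      x.val ∈ {X | ∃ Φ : FS.E ≃o FS.E, X = (Φ ⟨B, hB⟩).1} →
      (Φ x).val ∈ {X | ∃ Φ : FS.E ≃o FS.E, X = (Φ ⟨B, hB⟩).1} := by
    rintro Φ x ⟨Ψ, hΨ⟩
    refine ⟨Ψ.trans Φ, ?_⟩
    have : x = Ψ ⟨B, hB⟩ := Subtype.ext hΨ
    rw [this]
    rfl
  have g4 : ∀ x y : FS.E, x.val ∈ {X | ∃ Φ : FS.E ≃o FS.E, X = (Φ ⟨B, hB⟩).1} →
      y.val ∈ {X | ∃ Φ : FS.E ≃o FS.E, X = (Φ ⟨B, hB⟩).1} → ∃ Φ : FS.E ≃o FS.E, Φ x = y := by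
    rintro x y ⟨Φ, hΦ⟩ ⟨Ψ, hΨ⟩
    have h1 : x = Φ ⟨B, hB⟩ := Subtype.ext hΦ
    have h2 : y = Ψ ⟨B, hB⟩ := Subtype.ext hΨ
    refine ⟨Φ.symm.trans Ψ, ?_⟩
    rw [h1, h2]
    show Ψ (Φ.symm (Φ ⟨B, hB⟩)) = _
    rw [OrderIso.symm_apply_apply]
  obtain ⟨-, -, h3⟩ := H {X | ∃ Φ : FS.E ≃o FS.E, X = (Φ ⟨B, hB⟩).1} g1 g2 g3 g4
    {A | ∃ B' ∈ {X | ∃ Φ : FS.E ≃o FS.E, X = (Φ ⟨B, hB⟩).1}, ∃ A1 : Set ℕ,
          REPred (fun n : ℕ => n ∈ A) ∧ REPred (fun n : ℕ => n ∈ A1) ∧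
          Disjoint A A1 ∧ A ∪ A1 = B' ∧
          ∀ W : Set ℕ, REPred (fun n : ℕ => n ∈ W) → ¬ REPred (fun n : ℕ => n ∈ W \ B') →
            (¬ REPred (fun n : ℕ => n ∈ W \ A) ∧ ¬ REPred (fun n : ℕ => n ∈ W \ A1))}
    (fun _ => Iff.rfl)
  have k1 := h3 ⟨A, hA⟩ ⟨G0, hG0⟩
    ⟨B, ⟨OrderIso.refl _, rfl⟩, A1, hA, hA1, hAd, hAB, fun W hW hWB =>
      ⟨hfr A A1 (hAB ▸ Set.subset_union_left) hAf W hW hWB,
        hfr A1 A (hAB ▸ Set.subset_union_right) (fun V hV h => hAf V hV h.symm) W hW hWB⟩⟩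
    ⟨B, ⟨OrderIso.refl _, rfl⟩, G1, hG0, hG1, hGd, hGB, fun W hW hWB =>
      ⟨hfr G0 G1 (hGB ▸ Set.subset_union_left) hGf W hW hWB,
        hfr G1 G0 (hGB ▸ Set.subset_union_right) (fun V hV h => hGf V hV h.symm) W hW hWB⟩⟩
  obtain ⟨Φ, hΦ⟩ := k1
  exact hmain Φ (congrArg Subtype.val hΦ)

end Pool.Agent.S15072
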