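import Pool.Statements.S15363
import Pool.Agent.V8H31.Chains.Chain
import Pool.Agent.V8H31.Chains.Prog

set_option autoImplicit false
open Polynomial
open Pool Pool.MP_cd9e74_lc

namespace Pool.Agent.S15363

/-- There is an integer polynomial q of degree at least 1, computed by a straight-line +,−,× program from 1 and x, whose number of product steps is smaller than the length of every addition chain for deg q. -/
theorem result :
    ∃ (q : Polynomial ℤ) (m : ℕ) (v : ℕ → Polynomial ℤ) (op : ℕ → Fin 3) (a b : ℕ → ℕ),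
      1 ≤ q.natDegree ∧
      v 0 = 1 ∧ v 1 = Polynomial.X ∧
      (∀ k, k < m →
        a k < k + 2 ∧ b k < k + 2 ∧
        (op k = 0 → v (k + 2) = v (a k) + v (b k)) ∧
        (op k = 1 → v (k + 2) = v (a k) - v (b k)) ∧
        (op k = 2 → v (k + 2) = v (a k) * v (b k))) ∧
      (∃ t, t < m + 2 ∧ v t = q) ∧
      (∀ (r : ℕ) (c : ℕ → ℕ),
        c 0 = 1 →
        (∀ k, 1 ≤ k → k ≤ r → ∃ i j, i < k ∧ j < k ∧ c k = c i + c j) →
        c r = q.natDegree →
        ((Finset.range m).filter (fun k => op k = 2)).card < r) := by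
  refine ⟨Pool.Agent.V8H31.Chains.Q, 25, Pool.Agent.V8H31.Chains.val, Pool.Agent.V8H31.Chains.opl, Pool.Agent.V8H31.Chains.al,
    Pool.Agent.V8H31.Chains.bl, ?_, rfl, rfl, Pool.Agent.V8H31.Chains.steps, ⟨26, by norm_num, Pool.Agent.V8H31.Chains.val26⟩, ?_⟩
  · rw [Pool.Agent.V8H31.Chains.natDegree_last]
    norm_num
  · intro r c h0 hc hr
    rw [Pool.Agent.V8H31.Chains.natDegree_last] at hr
    have h := Pool.Agent.V8H31.Chains.chain4491 r c h0 hc hr
    have e : ((Finset.range 25).filter (fun k => Pool.Agent.V8H31.Chains.opl k = 2)).card = 15 := by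
      decide
    rw [e]
    exact h

end Pool.Agent.S15363
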