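import Pool.Statements.S15411
import Pool.Agent.V8H40.OG.Bas
import Pool.Agent.V8H40.OG.Two
import Pool.Agent.V8H40.OG.Gen

set_option autoImplicit false
open Pool Pool.MP_d483bb_lc
open Pool.Agent.V8H40.OG

namespace Pool.Agent.S15411

/-- Every computable torsion-free abelian group of infinite rank has a computable copy with a computable order, and with an order below some degree X such that no order on that copy has exactly the Turing degree of X. -/
theorem result :
    ∀ (H : Type) [AddCommGroup H],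
      (∀ (n : ℕ) (x : H), n ≠ 0 → n • x = 0 → x = 0) →
      Cardinal.aleph0 ≤ Module.rank ℤ H →
      (∃ ν : ℕ ≃ H, Computable₂ (fun a b : ℕ => ν.symm (ν a + ν b))) →
      ∃ μ : ℕ ≃ H, Computable₂ (fun a b : ℕ => μ.symm (μ a + μ b)) ∧
        (∃ P : Set H,
          (∀ a ∈ P, ∀ b ∈ P, a + b ∈ P) ∧ (∀ a : H, a ∈ P → -a ∈ P → a = 0) ∧
            (∀ a : H, a ∈ P ∨ -a ∈ P) ∧
            Computable (Set.indicator (μ ⁻¹' P) (fun _ => (1 : ℕ)) : ℕ → ℕ)) ∧
        ∃ P : Set H,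
          (∀ a ∈ P, ∀ b ∈ P, a + b ∈ P) ∧ (∀ a : H, a ∈ P → -a ∈ P → a = 0) ∧
            (∀ a : H, a ∈ P ∨ -a ∈ P) ∧
            ∃ X : ℕ → ℕ,
              TuringReducible
                ((Set.indicator (μ ⁻¹' P) (fun _ => (1 : ℕ)) : ℕ → ℕ) : ℕ →. ℕ)
                ((X : ℕ → ℕ) : ℕ →. ℕ) ∧
              ∀ Q : Set H,
                (∀ a ∈ Q, ∀ b ∈ Q, a + b ∈ Q) →
                (∀ a : H, a ∈ Q → -a ∈ Q → a = 0) →
                (∀ a : H, a ∈ Q ∨ -a ∈ Q) →
                ¬ (TuringReducible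
                      ((Set.indicator (μ ⁻¹' Q) (fun _ => (1 : ℕ)) : ℕ → ℕ) : ℕ →. ℕ)
                      ((X : ℕ → ℕ) : ℕ →. ℕ) ∧
                    TuringReducible ((X : ℕ → ℕ) : ℕ →. ℕ)
                      ((Set.indicator (μ ⁻¹' Q) (fun _ => (1 : ℕ)) : ℕ → ℕ) : ℕ →. ℕ)) := by
  classical
  intro H _ htf hrank hνe
  obtain ⟨ν, hν⟩ := hνe
  obtain ⟨φ, kk, hφ, hkk, hK, hunit⟩ := exists_rep H htf hrank ν hν
  obtain ⟨q, hq, hqK, ⟨A, hA, hqA⟩, Pos, hPos, hcone, htwo⟩ := two_orders hkk hK hunit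
  have hex : ∀ a, ∃ h, φ h = q a := fun a => (hqK _).2 ⟨a, rfl⟩
  choose m hm using hex
  have hmb : Function.Bijective m := by
    refine ⟨fun a b hab => hq ?_, fun h => ?_⟩
    · rw [← hm a, ← hm b, hab]
    · obtain ⟨a, ha⟩ := (hqK _).1 ⟨h, rfl⟩
      exact ⟨a, hφ (by rw [hm, ha])⟩
  let μ : ℕ ≃ H := Equiv.ofBijective m hmb
  have hμ : ∀ a, φ (μ a) = q a := hm
  have hμA : ∀ a b, μ.symm (μ a + μ b) = A a b := by
    intro a b
    rw [Equiv.symm_apply_eq]
    apply hφ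
    rw [map_add, hμ, hμ, hμ, hqA]
  have hμc : Computable₂ (fun a b : ℕ => μ.symm (μ a + μ b)) :=
    (hA : Computable fun x : ℕ × ℕ => A x.1 x.2).of_eq fun x => (hμA x.1 x.2).symm
  have hneg : ∀ a, ∃ b, q b = - q a := by
    intro a
    refine ⟨μ.symm (-μ a), ?_⟩
    rw [← hμ, Equiv.apply_symm_apply, map_neg, hμ]
  have hnegc : Computable fun a => μ.symm (-μ a) := g_neg hμc Computable.id
  -- the positive cone
  let P : Set H := {h | Pos (μ.symm h)}
  have hind : ∀ (Q : Set H) (a : ℕ),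
      (Set.indicator (μ ⁻¹' Q) (fun _ => (1 : ℕ)) : ℕ → ℕ) a = if μ a ∈ Q then 1 else 0 :=
    fun Q a => Set.indicator_apply _ _ _
  have hPadd : ∀ a ∈ P, ∀ b ∈ P, a + b ∈ P := by
    intro a ha b hb
    refine hcone.add (μ.symm a) (μ.symm b) _ ha hb ?_
    rw [← hμ, ← hμ, ← hμ, Equiv.apply_symm_apply, Equiv.apply_symm_apply,
      Equiv.apply_symm_apply, map_add]
  have hPanti : ∀ a : H, a ∈ P → -a ∈ P → a = 0 := by
    intro a ha hb
    have h1 := hcone.anti (μ.symm a) (μ.symm (-a)) ha hb (by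
      rw [← hμ, ← hμ, Equiv.apply_symm_apply, Equiv.apply_symm_apply, map_neg])
    rw [← hμ, Equiv.apply_symm_apply] at h1
    exact hφ (by rw [h1, map_zero])
  have hPtot : ∀ a : H, a ∈ P ∨ -a ∈ P := by
    intro a
    exact hcone.tot (μ.symm a) (μ.symm (-a)) (by
      rw [← hμ, ← hμ, Equiv.apply_symm_apply, Equiv.apply_symm_apply, map_neg])
  have hPc : Computable (Set.indicator (μ ⁻¹' P) (fun _ => (1 : ℕ)) : ℕ → ℕ) := by
    have h1 : Computable fun a => if decide (Pos a) = true then 1 else 0 :=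
      Pool.Agent.R557.CK.c_ite' (by simpa using hPos.dec) (Computable.const 1)
        (Computable.const 0)
    refine h1.of_eq fun a => ?_
    rw [hind]
    simp [P]
  refine ⟨μ, hμc, ⟨P, hPadd, hPanti, hPtot, hPc⟩, P, hPadd, hPanti, hPtot, ?_⟩
  obtain ⟨X, hX, hXQ⟩ := exists_generic hneg hcone htwo
  refine ⟨X, ?_, fun Q hadd hanti htot hcon => ?_⟩
  · have h1 : Partrec ((Set.indicator (μ ⁻¹' P) (fun _ => (1 : ℕ)) : ℕ → ℕ) : ℕ →. ℕ) := hPc
    exact partrec_iff_forall_turingReducible.1 h1 _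
  obtain ⟨hcon1, hcon2⟩ := hcon
  let χ : ℕ → ℕ := Set.indicator (μ ⁻¹' Q) (fun _ => (1 : ℕ))
  have hχ : ∀ a, χ a = if μ a ∈ Q then 1 else 0 := fun a => hind Q a
  have hQcone : IsCone q (fun a => μ a ∈ Q) := by
    refine ⟨fun a b c ha hb hc => ?_, fun a b ha hb hab => ?_, fun a b hab => ?_⟩
    · have h1 : μ c = μ a + μ b := hφ (by rw [map_add, hμ, hμ, hμ, hc])
      rw [h1]
      exact hadd _ ha _ hb
    · have h1 : μ b = - μ a := hφ (by rw [map_neg, hμ, hμ, hab])
      rw [h1] at hb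
      rw [← hμ, hanti _ ha hb, map_zero]
    · have h1 : μ b = - μ a := hφ (by rw [map_neg, hμ, hμ, hab])
      rw [h1]
      exact htot _
  have hχc : Computable χ := by
    have h2 := hXQ (fun a => μ a ∈ Q) χ hQcone (fun a => by
      rw [hχ]
      by_cases h : μ a ∈ Q <;> simp [h]) (fun a h => by
      rw [hχ] at h ⊢
      by_cases h3 : μ a ∈ Q
      · simp [h3] at h
      · simp [h3]) (RecursiveIn.iff_nat.1 hcon1)
    have h3 : CP fun a => μ a ∈ Q := by
      rcases h2 with h2 | h2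
      · exact hPos.of_iff fun a => (h2 a).symm
      · refine (hPos.comp hnegc).of_iff fun a => (h2 a _ ?_).symm
        rw [← hμ, Equiv.apply_symm_apply, map_neg, hμ]
    have h1 : Computable fun a => if decide (μ a ∈ Q) = true then 1 else 0 :=
      Pool.Agent.R557.CK.c_ite' (by simpa using h3.dec) (Computable.const 1)
        (Computable.const 0)
    refine h1.of_eq fun a => ?_
    rw [hχ]
    simp
  refine hX ?_
  have h4 : Partrec (χ : ℕ →. ℕ) := hχc
  have h5 : Partrec (X : ℕ →. ℕ) :=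
    partrec_iff_forall_turingReducible.2 fun g =>
      TuringReducible.trans hcon2 (partrec_iff_forall_turingReducible.1 h4 g)
  exact h5

end Pool.Agent.S15411
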